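import Pool.Agent.H706.NC.Stage
import Pool.Graph.R_seed8.Y624.PaRounds

set_option autoImplicit false
set_option linter.unusedSectionVars false

/-!
# Two sparse codes with large distance on one matrix

`H g s` is a matrix with at most three nonzero entries in every column `g`. Its rows give the
equations of one code (with unknowns `y g`), its columns the equations of another one (with
unknowns `x s`).
-/

namespace Pool.Agent.H706.NC

open Finset Pool.Agent.W946.Sz

variable {F G R : Type*} [Field F] [Fintype G] [Fintype R] [DecidableEq G] [DecidableEq R]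

/-- a solution of the equations given by the rows outside of `outs` -/
def RightSol (H : G → R → F) (outs : Finset R) (y : G → F) : Prop :=
  ∀ s, s ∉ outs → ∑ g, H g s * y g = 0

open Classical in
/-- the columns on which a solution does not vanish -/
noncomputable def live (H : G → R → F) (outs : Finset R) : Finset G :=
  univ.filter fun g => ∃ y, RightSol H outs y ∧ y g ≠ 0

open Classical in
/-- their rows -/
noncomputable def liveRows (H : G → R → F) (outs : Finset R) : Finset R :=
  univ.filter fun s => ∃ g ∈ live H outs, H g s ≠ 0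

/-- the part of a row in the live columns -/
def part (H : G → R → F) (outs : Finset R) (s : R) : live H outs → F := fun g => H g s

variable {H : G → R → F} {outs : Finset R}

theorem mem_live {g : G} : g ∈ live H outs ↔ ∃ y, RightSol H outs y ∧ y g ≠ 0 := by
  classical
  unfold live
  simp

theorem mem_liveRows {s : R} : s ∈ liveRows H outs ↔ ∃ g ∈ live H outs, H g s ≠ 0 := by
  classical
  unfold liveRows
  simp

theorem RightSol.zero {y : G → F} (hy : RightSol H outs y) {g : G} (hg : g ∉ live H outs) :
    y g = 0 := by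
  by_contra h
  exact hg (mem_live.2 ⟨y, hy, h⟩)

theorem sum_live {y : G → F} (hy : ∀ g, g ∉ live H outs → y g = 0) (s : R) :
    ∑ g ∈ live H outs, H g s * y g = ∑ g, H g s * y g :=
  sum_subset (subset_univ _) fun g _ hg => by rw [hy g hg, mul_zero]

theorem two_le {s : R} (hs : s ∈ liveRows H outs) (hs' : s ∉ outs) :
    2 ≤ (eqs H (live H outs) s).card := by
  classical
  obtain ⟨g₀, hg₀, h0⟩ := mem_liveRows.1 hs
  obtain ⟨y, hy, hy0⟩ := mem_live.1 hg₀
  have h1 := hy s hs'
  rw [← add_sum_erase _ _ (mem_univ g₀)] at h1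
  have h2 : ∑ g ∈ univ.erase g₀, H g s * y g ≠ 0 := by
    intro h
    rw [h, add_zero] at h1
    exact (mul_ne_zero h0 hy0) h1
  obtain ⟨g₁, hg₁, h3⟩ := exists_ne_zero_of_sum_ne_zero h2
  have hne := (mem_erase.1 hg₁).1
  rw [← card_pair hne.symm]
  refine card_le_card fun g hg => ?_
  unfold eqs
  rw [mem_filter]
  rw [mem_insert, mem_singleton] at hg
  rcases hg with rfl | rfl
  · exact ⟨hg₀, h0⟩
  · exact ⟨mem_live.2 ⟨y, hy, right_ne_zero_of_mul h3⟩, left_ne_zero_of_mul h3⟩

/-- **A basis of the rows which prefers the rows in `A`.** -/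
theorem greedy (H : G → R → F) (outs : Finset R) {A E : Finset R} (hA : A ⊆ E) :
    ∃ b ⊆ E, (∀ c : R → F, ∑ s ∈ b, c s • part H outs s = 0 → ∀ s ∈ b, c s = 0) ∧
      (∀ s ∈ E, part H outs s ∈ Submodule.span F (part H outs '' b)) ∧
      ∀ x : R → F, ∑ s ∈ E, x s • part H outs s = 0 → (∀ s ∈ E \ A, s ∉ b → x s = 0) →
        ∀ s ∈ E \ A, x s = 0 := by
  classical
  obtain ⟨b₁, hb₁A, _, hspan₁, hind₁⟩ := exists_linearIndepOn_extension (K := F)
    (v := part H outs) (s := (∅ : Set R)) (t := (A : Set R)) (linearIndepOn_empty F _)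
    (Set.empty_subset _)
  obtain ⟨b₂, hb₂E, hb₁₂, hspan₂, hind₂⟩ := exists_linearIndepOn_extension (K := F)
    (v := part H outs) (s := b₁) (t := (E : Set R)) hind₁ (hb₁A.trans (by exact_mod_cast hA))
  have hfin : b₂.Finite := E.finite_toSet.subset hb₂E
  set b : Finset R := hfin.toFinset with hb
  have hbc : (b : Set R) = b₂ := by rw [hb, Set.Finite.coe_toFinset]
  have hbE : b ⊆ E := by
    intro s hs
    rw [← mem_coe, hbc] at hs
    exact hb₂E hs
  have hind : ∀ c : R → F, ∑ s ∈ b, c s • part H outs s = 0 → ∀ s ∈ b, c s = 0 := by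
    have h1 : LinearIndepOn F (part H outs) (b : Set R) := by rw [hbc]; exact hind₂
    exact linearIndepOn_finset_iff.1 h1
  refine ⟨b, hbE, hind, fun s hs => ?_, fun x hx h0 s hs => ?_⟩
  · rw [hbc]
    exact hspan₂ ⟨s, hs, rfl⟩
  · by_cases hsb : s ∈ b
    · -- the sum over `A` is in the span of `b₁`
      have h1 : ∑ t ∈ A, x t • part H outs t ∈ Submodule.span F (part H outs '' b₁) :=
        Submodule.sum_mem _ fun t ht => Submodule.smul_mem _ _ (hspan₁ ⟨t, ht, rfl⟩)
      have h2 : ∑ t ∈ E \ A, x t • part H outs t = ∑ t ∈ b \ A, x t • part H outs t := by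
        symm
        refine sum_subset (sdiff_subset_sdiff hbE subset_rfl) fun t ht ht' => ?_
        rw [h0 t ht fun h => ht' (mem_sdiff.2 ⟨h, (mem_sdiff.1 ht).2⟩), zero_smul]
      rw [← sum_sdiff hA, h2] at hx
      have h3 : ∑ t ∈ b \ A, x t • part H outs t ∈ Submodule.span F (part H outs '' b₁) := by
        rw [eq_neg_of_add_eq_zero_left hx]
        exact Submodule.neg_mem _ h1
      have hb₁fin : b₁.Finite := hfin.subset hb₁₂
      set β := hb₁fin.toFinset with hβ
      have hβc : (β : Set R) = b₁ := by rw [hβ, Set.Finite.coe_toFinset]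
      have hβb : β ⊆ b := by
        intro t ht
        rw [← mem_coe, hβc] at ht
        rw [← mem_coe, hbc]
        exact hb₁₂ ht
      have hβA : β ⊆ A := by
        intro t ht
        rw [← mem_coe, hβc] at ht
        exact hb₁A ht
      rw [← hβc, Submodule.mem_span_image_finset_iff_exists_fun] at h3
      obtain ⟨c₀, hc₀⟩ := h3
      obtain ⟨c, hc⟩ : ∃ c : R → F, ∑ t ∈ β, c t • part H outs t =
          ∑ t ∈ b \ A, x t • part H outs t := by
        refine ⟨fun t => if h : t ∈ β then c₀ ⟨t, h⟩ else 0, ?_⟩
        rw [← hc₀, ← Finset.sum_coe_sort β]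
        refine sum_congr rfl fun t _ => ?_
        beta_reduce
        rw [dif_pos t.2]
      -- the combination
      have h4 : ∑ t ∈ b, (if t ∈ A then (if t ∈ β then - c t else 0) else x t) •
          part H outs t = 0 := by
        have e1 : ∑ t ∈ b \ A, (if t ∈ A then (if t ∈ β then - c t else 0) else x t) •
            part H outs t = ∑ t ∈ b \ A, x t • part H outs t :=
          sum_congr rfl fun t ht => by rw [if_neg (mem_sdiff.1 ht).2]
        have e2 : ∑ t ∈ b ∩ A, (if t ∈ A then (if t ∈ β then - c t else 0) else x t) •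
            part H outs t = - ∑ t ∈ β, c t • part H outs t := by
          rw [← sum_neg_distrib]
          symm
          refine sum_subset_zero_on_sdiff (fun t ht => mem_inter.2 ⟨hβb ht, hβA ht⟩)
            (fun t ht => ?_) fun t ht => ?_
          · rw [mem_sdiff, mem_inter] at ht
            rw [if_pos ht.1.2, if_neg ht.2, zero_smul]
          · rw [if_pos (hβA ht), if_pos ht, neg_smul]
        rw [← sum_sdiff (inter_subset_left : b ∩ A ⊆ b), sdiff_inter_self_left, e1, e2, hc]
        exact add_neg_cancel _
      have h5 := hind _ h4 s hsb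
      rwa [if_neg (mem_sdiff.1 hs).2] at h5
    · exact h0 s hs hsb

/-- a basis of the rows outside of `outs` is small. -/
theorem card_basis {b : Finset R} (hb : Disjoint b outs)
    (hind : ∀ c : R → F, ∑ s ∈ b, c s • part H outs s = 0 → ∀ s ∈ b, c s = 0)
    (hdual : ∀ e ∈ outs, ∃ y : G → F, ∀ s, ∑ g, H g s * y g = if s = e then 1 else 0) :
    b.card + outs.card ≤ (live H outs).card := by
  classical
  rw [← card_union_of_disjoint hb]
  have h1 : LinearIndepOn F (part H outs) ((b ∪ outs : Finset R) : Set R) := by
    rw [linearIndepOn_finset_iff]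
    intro c hc
    have h2 : ∀ e ∈ outs, c e = 0 := by
      intro e he
      obtain ⟨y, hy⟩ := hdual e he
      have hsol : RightSol H outs y := by
        intro s hs
        rw [hy, if_neg]
        rintro rfl
        exact hs he
      have h3 : ∑ g : live H outs, (∑ s ∈ b ∪ outs, c s • part H outs s) g * y g = 0 := by
        rw [hc]
        simp
      have h4 : ∑ g : live H outs, (∑ s ∈ b ∪ outs, c s • part H outs s) g * y g =
          ∑ s ∈ b ∪ outs, c s * ∑ g, H g s * y g := by
        simp only [Finset.sum_apply, Pi.smul_apply, smul_eq_mul, part, sum_mul, mul_sum]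
        rw [sum_comm]
        refine sum_congr rfl fun s _ => ?_
        rw [Finset.sum_coe_sort (live H outs) (fun g => c s * H g s * y g)]
        rw [← mul_sum, ← sum_live (fun g hg => hsol.zero hg), mul_sum]
        exact sum_congr rfl fun g _ => by ring
      rw [h4] at h3
      simp only [hy, mul_ite, mul_one, mul_zero] at h3
      rwa [sum_ite_eq', if_pos (mem_union_right _ he)] at h3
    intro s hs
    rcases mem_union.1 hs with h | h
    · refine hind c ?_ s h
      rw [← hc]
      refine sum_subset subset_union_left fun t ht ht' => ?_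
      rw [h2 t ((mem_union.1 ht).resolve_left ht'), zero_smul]
    · exact h2 s h
  have h2 : LinearIndependent F (fun s : (b ∪ outs : Finset R) => part H outs s) := h1
  have h3 := h2.fintype_card_le_finrank
  rwa [Fintype.card_coe, Module.finrank_fintype_fun_eq_card, Fintype.card_coe] at h3

end Pool.Agent.H706.NC
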