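import Pool.Agent.H706.NC.Rich
import Pool.Agent.H706.HC.Parts

set_option autoImplicit false
set_option linter.unusedSectionVars false

/-!
# The program of a circuit
-/

namespace Pool.Agent.H706.NC

open Finset Pool.Agent.H88R3.MM Pool.Agent.W946.Kos Pool.Agent.W946.Sz Pool.Agent.H522R2
  Pool.Agent.H522R2.Circuit
open Pool.Agent.H706.HC (form form_zero form_hom vc cst qp Nz IsProd lin_add' lin_mul' qp_add
  qp_mul lin_var quadPart quadPart_X Has has_zero has_one has_two nz_iff cst_iff inp_mul reach_gate
  card_le_natCard)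

variable {F V : Type*} [Field F] [Fintype V] [DecidableEq V]

/-- the gates -/
abbrev Gts (C : Circuit F V) : Type := {v : Fin C.nodes // IsGate C v}

noncomputable instance (C : Circuit F V) : Fintype (Gts C) := Fintype.ofFinite _

theorem card_Gts (C : Circuit F V) : Fintype.card (Gts C) = C.size := by
  unfold Circuit.size
  rw [← Nat.card_eq_fintype_card]
  rfl

open Classical in
/-- the symbol of a node which is not a constant -/
noncomputable def sym (C : Circuit F V) (v : Gts C) (u : Fin C.nodes) : V ⊕ Gts C :=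
  if h : IsGate C u then Sum.inr ⟨u, h⟩ else
    if h' : ∃ x, C.gate u = Gate.var x then Sum.inl h'.choose else Sum.inr v

variable {C : Circuit F V}

theorem sym_gate (v : Gts C) {u : Fin C.nodes} (h : IsGate C u) : sym C v u = Sum.inr ⟨u, h⟩ := by
  unfold sym
  rw [dif_pos h]

theorem sym_var (v : Gts C) {u : Fin C.nodes} {x : V} (h : C.gate u = Gate.var x) :
    sym C v u = Sum.inl x := by
  have h1 : ¬ IsGate C u := by
    rintro (⟨i, j, h'⟩ | ⟨i, j, h'⟩) <;> rw [h] at h' <;> cases h'
  have h2 : ∃ x, C.gate u = Gate.var x := ⟨x, h⟩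
  unfold sym
  rw [dif_neg h1, dif_pos h2]
  have h3 : (Gate.var x : Gate F V u) = Gate.var h2.choose := h.symm.trans h2.choose_spec
  injection h3 with h4
  rw [← h4]

theorem not_nz_const {u : Fin C.nodes} {c : F} (h : C.gate u = Gate.const c) : ¬ Nz C u := by
  rintro (h' | h')
  · exact h' (Pool.Agent.H706.HC.lin_const h)
  · apply h'
    rw [qp, poly_const h, Pool.Agent.H706.HC.quadPart_C]

/-- the value at the symbol of a node -/
theorem at_sym {M : Type*} [Zero M] (v : Gts C) (f : V ⊕ Gts C → M) (f₀ : Fin C.nodes → M)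
    (hvar : ∀ u x, C.gate u = Gate.var x → f₀ u = f (Sum.inl x))
    (hgate : ∀ u (h : IsGate C u), f₀ u = f (Sum.inr ⟨u, h⟩)) {u : Fin C.nodes} (hu : Nz C u) :
    f (sym C v u) = f₀ u := by
  cases hg : C.gate u with
  | var x => rw [sym_var v hg, hvar u x hg]
  | const c => exact absurd hu (not_nz_const hg)
  | add i j =>
    have h : IsGate C u := Or.inl ⟨i, j, hg⟩
    rw [sym_gate v h, hgate u h]
  | mul i j =>
    have h : IsGate C u := Or.inr ⟨i, j, hg⟩
    rw [sym_gate v h, hgate u h]

open Classical in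
/-- the coefficients -/
noncomputable def co (C : Circuit F V) (v : Gts C) (s : V ⊕ Gts C) : F :=
  match C.gate v.1 with
  | .var _ => 0
  | .const _ => 0
  | .add i j => (if s = sym C v (C.up v.1 i) ∧ Nz C (C.up v.1 i) then 1 else 0) +
      (if s = sym C v (C.up v.1 j) ∧ Nz C (C.up v.1 j) then 1 else 0)
  | .mul i j => (if s = sym C v (C.up v.1 i) ∧ Nz C (C.up v.1 i) then cst C (C.up v.1 j) else 0) +
      (if s = sym C v (C.up v.1 j) ∧ Nz C (C.up v.1 j) then cst C (C.up v.1 i) else 0)

/-- sums over the operands, in any module -/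
theorem sum_co {M : Type*} [AddCommGroup M] [Module F M] (v : Gts C) (f : V ⊕ Gts C → M)
    (f₀ : Fin C.nodes → M)
    (hvar : ∀ u x, C.gate u = Gate.var x → f₀ u = f (Sum.inl x))
    (hgate : ∀ u (h : IsGate C u), f₀ u = f (Sum.inr ⟨u, h⟩))
    (hf : ∀ u, ¬ Nz C u → f₀ u = 0) : ∑ s, co C v s • f s =
      match C.gate v.1 with
      | .var _ => 0
      | .const _ => 0
      | .add i j => f₀ (C.up v.1 i) + f₀ (C.up v.1 j)
      | .mul i j => cst C (C.up v.1 j) • f₀ (C.up v.1 i) +
          cst C (C.up v.1 i) • f₀ (C.up v.1 j) := by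
  classical
  have key : ∀ (u : Fin C.nodes) (a : F),
      ∑ s : V ⊕ Gts C, (if s = sym C v u ∧ Nz C u then a else 0) • f s = a • f₀ u := by
    intro u a
    by_cases hu : Nz C u
    · rw [Finset.sum_eq_single (sym C v u)]
      · rw [if_pos ⟨rfl, hu⟩, at_sym v f f₀ hvar hgate hu]
      · intro s _ hs
        rw [if_neg fun h => hs h.1, zero_smul]
      · intro h
        exact absurd (mem_univ _) h
    · rw [hf u hu, smul_zero]
      refine sum_eq_zero fun s _ => ?_
      rw [if_neg fun h => hu h.2, zero_smul]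
  unfold co
  cases h : C.gate v.1 with
  | var x => simp
  | const c => simp
  | add i j =>
    simp only [add_smul, sum_add_distrib, key, one_smul]
  | mul i j =>
    simp only [add_smul, sum_add_distrib, key]

theorem co_ne {v : Gts C} {s : V ⊕ Gts C} (h : co C v s ≠ 0) :
    (∃ i j, C.gate v.1 = Gate.add i j ∧ ((s = sym C v (C.up v.1 i) ∧ Nz C (C.up v.1 i)) ∨
      (s = sym C v (C.up v.1 j) ∧ Nz C (C.up v.1 j)))) ∨
    (∃ i j, C.gate v.1 = Gate.mul i j ∧
      ((s = sym C v (C.up v.1 i) ∧ Nz C (C.up v.1 i) ∧ cst C (C.up v.1 j) ≠ 0) ∨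
      (s = sym C v (C.up v.1 j) ∧ Nz C (C.up v.1 j) ∧ cst C (C.up v.1 i) ≠ 0))) := by
  classical
  unfold co at h
  cases hg : C.gate v.1 with
  | var x =>
    rw [hg] at h
    exact absurd rfl h
  | const c =>
    rw [hg] at h
    exact absurd rfl h
  | add i j =>
    rw [hg] at h
    left
    refine ⟨i, j, rfl, ?_⟩
    by_contra hs
    push Not at hs
    apply h
    change (if s = sym C v (C.up v.1 i) ∧ Nz C (C.up v.1 i) then (1 : F) else 0) +
      (if s = sym C v (C.up v.1 j) ∧ Nz C (C.up v.1 j) then 1 else 0) = 0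
    rw [if_neg fun h' => hs.1 h'.1 h'.2, if_neg fun h' => hs.2 h'.1 h'.2, add_zero]
  | mul i j =>
    rw [hg] at h
    right
    refine ⟨i, j, rfl, ?_⟩
    by_contra hs
    push Not at hs
    apply h
    change (if s = sym C v (C.up v.1 i) ∧ Nz C (C.up v.1 i) then cst C (C.up v.1 j) else 0) +
      (if s = sym C v (C.up v.1 j) ∧ Nz C (C.up v.1 j) then cst C (C.up v.1 i) else 0) = 0
    have h1 : (if s = sym C v (C.up v.1 i) ∧ Nz C (C.up v.1 i) then
        cst C (C.up v.1 j) else 0) = 0 := by
      split_ifs with h'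
      · exact hs.1 h'.1 h'.2
      · rfl
    have h2 : (if s = sym C v (C.up v.1 j) ∧ Nz C (C.up v.1 j) then
        cst C (C.up v.1 i) else 0) = 0 := by
      split_ifs with h'
      · exact hs.2 h'.1 h'.2
      · rfl
    rw [h1, h2, add_zero]

open Classical in
theorem co_sub (v : Gts C) : ∃ A : Finset (V ⊕ Gts C), A.card ≤ 2 ∧
    ∀ s, co C v s ≠ 0 → s ∈ A := by
  rcases v.2 with ⟨i, j, hg⟩ | ⟨i, j, hg⟩
  · refine ⟨{sym C v (C.up v.1 i), sym C v (C.up v.1 j)}, card_le_two, fun s hs => ?_⟩
    rw [mem_insert, mem_singleton]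
    rcases co_ne hs with ⟨i', j', h, h'⟩ | ⟨i', j', h, _⟩
    · rw [hg] at h
      cases h
      rcases h' with h' | h'
      · exact Or.inl h'.1
      · exact Or.inr h'.1
    · rw [hg] at h
      cases h
  · refine ⟨{sym C v (C.up v.1 i), sym C v (C.up v.1 j)}, card_le_two, fun s hs => ?_⟩
    rw [mem_insert, mem_singleton]
    rcases co_ne hs with ⟨i', j', h, _⟩ | ⟨i', j', h, h'⟩
    · rw [hg] at h
      cases h
    · rw [hg] at h
      cases h
      rcases h' with h' | h'
      · exact Or.inl h'.1
      · exact Or.inr h'.1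

theorem sym_inr {v : Gts C} {u : Fin C.nodes} (hu : Nz C u) {h : Gts C}
    (hs : (Sum.inr h : V ⊕ Gts C) = sym C v u) : h.1 = u := by
  cases hg : C.gate u with
  | var x =>
    rw [sym_var v hg] at hs
    cases hs
  | const c => exact absurd hu (not_nz_const hg)
  | add i j =>
    rw [sym_gate v (Or.inl ⟨i, j, hg⟩)] at hs
    rw [Sum.inr_injective hs]
  | mul i j =>
    rw [sym_gate v (Or.inr ⟨i, j, hg⟩)] at hs
    rw [Sum.inr_injective hs]

/-- the program of a circuit -/
noncomputable def prog (C : Circuit F V) : Prg F V (Gts C) where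
  L v := lin C v.1
  Q v := qp C v.1
  cf := co C
  cf_lt := by
    intro g h hh
    have key : ∀ (u : Fin C.nodes), (Sum.inr h : V ⊕ Gts C) = sym C g u → Nz C u → u < g.1 →
        h < g := by
      intro u h1 h2 h3
      have h4 := sym_inr h2 h1
      change h.1 < g.1
      rw [h4]
      exact h3
    rcases co_ne hh with ⟨i, j, _, h1⟩ | ⟨i, j, _, h1⟩
    · rcases h1 with h1 | h1
      · exact key _ h1.1 h1.2 (up_lt g.1 i)
      · exact key _ h1.1 h1.2 (up_lt g.1 j)
    · rcases h1 with h1 | h1
      · exact key _ h1.1 h1.2.1 (up_lt g.1 i)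
      · exact key _ h1.1 h1.2.1 (up_lt g.1 j)
  cf_card := by
    classical
    intro g
    obtain ⟨A, hA, hA'⟩ := co_sub (C := C) g
    refine le_trans (card_le_card fun s hs => ?_) hA
    exact hA' s (mem_filter.1 hs).2
  pd v := IsProd C v.1
  sa v := sym C v (inp C v.1).1
  sb v := sym C v (inp C v.1).2
  L_eq := by
    intro v
    rw [sum_co (C := C) v (vc fun w : Gts C => lin C w.1) (lin C)
      (fun u x hg => by rw [lin_var hg]; rfl) (fun u h => rfl)
      (fun u hu => by
        unfold Nz at hu
        push Not at hu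
        exact hu.1)]
    rcases v.2 with ⟨i, j, hg⟩ | ⟨i, j, hg⟩
    · rw [hg]
      exact lin_add' hg
    · rw [hg]
      change lin C v.1 = cst C (C.up v.1 j) • lin C (C.up v.1 i) +
        cst C (C.up v.1 i) • lin C (C.up v.1 j)
      rw [lin_mul' hg, add_comm]
  Q_eq := by
    classical
    intro v
    have h1 := sum_co (C := C) v (Sum.elim (fun _ => (0 : MvPolynomial V F))
        fun w : Gts C => qp C w.1) (qp C)
      (fun u x hg => by
        rw [qp, poly_var hg, quadPart_X]
        rfl) (fun u h => rfl)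
      (fun u hu => by
        unfold Nz at hu
        push Not at hu
        exact hu.2)
    rw [Fintype.sum_sum_type] at h1
    simp only [Sum.elim_inl, Sum.elim_inr, smul_zero, sum_const_zero, zero_add] at h1
    rw [h1]
    rcases v.2 with ⟨i, j, hg⟩ | ⟨i, j, hg⟩
    · rw [hg, if_neg]
      · change qp C v.1 = qp C (C.up v.1 i) + qp C (C.up v.1 j) + 0
        rw [add_zero]
        exact qp_add hg
      · rintro ⟨i', j', h, _⟩
        rw [hg] at h
        cases h
    · rw [hg]
      change qp C v.1 = cst C (C.up v.1 j) • qp C (C.up v.1 i) +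
        cst C (C.up v.1 i) • qp C (C.up v.1 j) + _
      rw [qp_mul hg, add_comm (cst C (C.up v.1 i) • qp C (C.up v.1 j))]
      congr 1
      by_cases hp : IsProd C v.1
      · rw [if_pos hp]
        obtain ⟨i', j', hg', hi, hj⟩ := hp
        rw [hg] at hg'
        cases hg'
        have hs : ∀ u, lin C u ≠ 0 →
            vc (fun w : Gts C => lin C w.1) (sym C v u) = lin C u := fun u hu =>
          at_sym v (vc fun w : Gts C => lin C w.1) (lin C)
            (fun u x hg => by rw [lin_var hg]; rfl) (fun u h => rfl) (Or.inl hu)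
        rw [inp_mul hg, hs _ hi, hs _ hj]
      · rw [if_neg hp]
        have h2 : lin C (C.up v.1 i) = 0 ∨ lin C (C.up v.1 j) = 0 := by
          by_contra hcon
          push Not at hcon
          exact hp ⟨i, j, hg, hcon.1, hcon.2⟩
        rcases h2 with h2 | h2
        · rw [h2, form_zero, zero_mul]
        · rw [h2, form_zero, mul_zero]

/-- The number of the `×` gates both of whose factors have a nonzero constant term and a nonzero
part of degree `1` or `2`. -/
noncomputable def fullCount (C : Circuit F V) : ℕ :=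
  Nat.card {v : Fin C.nodes // ∃ i j, C.gate v = Gate.mul i j ∧
    (Has 1 (C.poly (C.up v i)) ∨ Has 2 (C.poly (C.up v i))) ∧
    (Has 1 (C.poly (C.up v j)) ∨ Has 2 (C.poly (C.up v j))) ∧
    Has 0 (C.poly (C.up v i)) ∧ Has 0 (C.poly (C.up v j))}

/-- The number of the `×` gates both of whose factors have a nonzero linear part and exactly one
of whose factors has a nonzero constant term. -/
noncomputable def halfCount (C : Circuit F V) : ℕ :=
  Nat.card {v : Fin C.nodes // ∃ i j, C.gate v = Gate.mul i j ∧
    Has 1 (C.poly (C.up v i)) ∧ Has 1 (C.poly (C.up v j)) ∧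
    ¬ (Has 0 (C.poly (C.up v i)) ↔ Has 0 (C.poly (C.up v j)))}

/-- what is counted by `fullCount` -/
def Full (C : Circuit F V) (v : Fin C.nodes) : Prop := ∃ i j, C.gate v = Gate.mul i j ∧
    Nz C (C.up v i) ∧ Nz C (C.up v j) ∧ cst C (C.up v i) ≠ 0 ∧ cst C (C.up v j) ≠ 0

/-- what is counted by `halfCount` -/
def Half (C : Circuit F V) (v : Fin C.nodes) : Prop := ∃ i j, C.gate v = Gate.mul i j ∧
    lin C (C.up v i) ≠ 0 ∧ lin C (C.up v j) ≠ 0 ∧
    ¬ (cst C (C.up v i) ≠ 0 ↔ cst C (C.up v j) ≠ 0)

theorem natCard_eq {ι : Type*} [Fintype ι] {p q : ι → Prop} [DecidablePred p]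
    (h : ∀ i, p i ↔ q i) : Nat.card {i // q i} = (univ.filter p).card := by
  rw [← Fintype.card_subtype, ← Nat.card_eq_fintype_card]
  exact Nat.card_congr (Equiv.subtypeEquivRight fun i => (h i).symm)

open Classical in
theorem full_eq (C : Circuit F V) : fullCount C = (univ.filter fun v => Full C v).card := by
  refine natCard_eq fun v => ?_
  refine exists_congr fun i => exists_congr fun j => ?_
  rw [nz_iff, nz_iff, cst_iff, cst_iff]

open Classical in
theorem half_eq (C : Circuit F V) : halfCount C = (univ.filter fun v => Half C v).card := by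
  refine natCard_eq fun v => ?_
  refine exists_congr fun i => exists_congr fun j => ?_
  rw [has_one, has_one, cst_iff, cst_iff]
  rfl

open Classical in
theorem add_eq (C : Circuit F V) : Pool.Agent.H706.HC.addCount C =
    (univ.filter fun v => ∃ i j, C.gate v = Gate.add i j).card :=
  natCard_eq fun _ => Iff.rfl

open Classical in
theorem size_eq (C : Circuit F V) : C.size = (univ.filter fun v => IsGate C v).card :=
  natCard_eq fun _ => Iff.rfl

theorem card_val {C : Circuit F V} (A : Finset (Gts C)) (p : Fin C.nodes → Prop)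
    [DecidablePred p] (h : ∀ v ∈ A, p v.1) : A.card ≤ (univ.filter p).card := by
  refine card_le_card_of_injOn Subtype.val (fun v hv => ?_) Subtype.val_injective.injOn
  rw [mem_coe] at hv ⊢
  exact mem_filter.2 ⟨mem_univ _, h v hv⟩

/-- the operands of an affine product -/
theorem mul_full {v : Gts C} (h2 : ((prog C).ops v).card = 2) {i j : Fin (v.1 : ℕ)}
    (hg : C.gate v.1 = Gate.mul i j) : Full C v.1 := by
  classical
  have h3 : ∀ t ∈ (prog C).ops v, (t = sym C v (C.up v.1 i) ∧ Nz C (C.up v.1 i) ∧
      cst C (C.up v.1 j) ≠ 0) ∨ (t = sym C v (C.up v.1 j) ∧ Nz C (C.up v.1 j) ∧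
      cst C (C.up v.1 i) ≠ 0) := by
    intro t ht
    rcases co_ne ((prog C).mem_ops.1 ht) with ⟨i', j', h', _⟩ | ⟨i', j', h', h4⟩
    · rw [hg] at h'
      cases h'
    · rw [hg] at h'
      cases h'
      exact h4
  obtain ⟨s₁, s₂, hne, hs12⟩ := card_eq_two.1 h2
  have m1 := h3 s₁ (by rw [hs12]; simp)
  have m2 := h3 s₂ (by rw [hs12]; simp)
  rcases m1 with m1 | m1 <;> rcases m2 with m2 | m2
  · exact absurd (m1.1.trans m2.1.symm) hne
  · exact ⟨i, j, hg, m1.2.1, m2.2.1, m2.2.2, m1.2.2⟩
  · exact ⟨i, j, hg, m2.2.1, m1.2.1, m1.2.2, m2.2.2⟩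
  · exact absurd (m1.1.trans m2.1.symm) hne

/-- a product with one operand -/
theorem prod_one {v : Gts C} (hp : (prog C).pd v) (h2 : ((prog C).ops v).card ≠ 0) :
    Half C v.1 ∨ Full C v.1 := by
  classical
  obtain ⟨i, j, hg, hi, hj⟩ := hp
  obtain ⟨s, hs⟩ := card_pos.1 (Nat.pos_of_ne_zero h2)
  rcases co_ne ((prog C).mem_ops.1 hs) with ⟨i', j', h', _⟩ | ⟨i', j', h', h4⟩
  · rw [hg] at h'
    cases h'
  · rw [hg] at h'
    cases h'
    have h5 : cst C (C.up v.1 i) ≠ 0 ∨ cst C (C.up v.1 j) ≠ 0 := by
      rcases h4 with h4 | h4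
      · exact Or.inr h4.2.2
      · exact Or.inl h4.2.2
    by_cases h6 : cst C (C.up v.1 i) ≠ 0 ∧ cst C (C.up v.1 j) ≠ 0
    · exact Or.inr ⟨i, j, hg, Or.inl hi, Or.inl hj, h6.1, h6.2⟩
    · refine Or.inl ⟨i, j, hg, hi, hj, ?_⟩
      tauto

open Classical in
/-- the inequalities between the numbers of gates -/
theorem counts (C : Circuit F V) (live : Finset (Gts C)) :
    (univ.filter fun v => ((prog C).ops v).card = 2).card ≤
      Pool.Agent.H706.HC.addCount C + fullCount C ∧
    ∃ z : ℕ, z ≤ (live.filter fun v => ((prog C).ops v).card = 0).card ∧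
      (live.filter fun v => (prog C).pd v).card ≤ z + halfCount C + fullCount C ∧
      Pool.Agent.H706.HC.addCount C + halfCount C + fullCount C + z ≤ C.size := by
  have h1 := add_eq C
  have h2 := full_eq C
  have h3 := half_eq C
  have h4 := size_eq C
  set A := univ.filter fun v : Fin C.nodes => ∃ i j, C.gate v = Gate.add i j with hA
  set Fu := univ.filter fun v : Fin C.nodes => Full C v with hFu
  set Ha := univ.filter fun v : Fin C.nodes => Half C v with hHa
  constructor
  · have k1 : (univ.filter fun v => ((prog C).ops v).card = 2).card ≤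
        (univ.filter fun v : Fin C.nodes => (∃ i j, C.gate v = Gate.add i j) ∨ Full C v).card := by
      refine card_val (C := C) _ _ fun v hv => ?_
      have hv' := (mem_filter.1 hv).2
      rcases v.2 with h | ⟨i, j, hg⟩
      · exact Or.inl h
      · exact Or.inr (mul_full hv' hg)
    have k2 : (univ.filter fun v : Fin C.nodes =>
        (∃ i j, C.gate v = Gate.add i j) ∨ Full C v).card ≤ A.card + Fu.card := by
      refine (card_le_card fun v hv => ?_).trans (card_union_le _ _)
      rw [mem_union]
      rcases (mem_filter.1 hv).2 with h | h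
      · exact Or.inl (mem_filter.2 ⟨mem_univ _, h⟩)
      · exact Or.inr (mem_filter.2 ⟨mem_univ _, h⟩)
    omega
  · set Z := live.filter fun v => (prog C).pd v ∧ ¬ Half C v.1 ∧ ¬ Full C v.1 with hZ
    refine ⟨Z.card, ?_, ?_, ?_⟩
    · refine card_le_card fun v hv => ?_
      have hv' := mem_filter.1 hv
      refine mem_filter.2 ⟨hv'.1, ?_⟩
      by_contra h
      rcases prod_one hv'.2.1 h with h' | h'
      · exact hv'.2.2.1 h'
      · exact hv'.2.2.2 h'
    · have k1 : (live.filter fun v => (prog C).pd v).card ≤ Z.card +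
          ((live.filter fun v => Half C v.1).card + (live.filter fun v => Full C v.1).card) := by
        refine (card_le_card (t := Z ∪ ((live.filter fun v => Half C v.1) ∪
          (live.filter fun v => Full C v.1))) fun v hv => ?_).trans
          ((card_union_le _ _).trans (Nat.add_le_add_left (card_union_le _ _) _))
        have hv' := mem_filter.1 hv
        rw [mem_union, mem_union]
        by_cases h5 : Half C v.1
        · exact Or.inr (Or.inl (mem_filter.2 ⟨hv'.1, h5⟩))
        · by_cases h6 : Full C v.1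
          · exact Or.inr (Or.inr (mem_filter.2 ⟨hv'.1, h6⟩))
          · exact Or.inl (mem_filter.2 ⟨hv'.1, hv'.2, h5, h6⟩)
      have k2 : (live.filter fun v => Half C v.1).card ≤ Ha.card :=
        card_val (C := C) _ _ fun v hv => (mem_filter.1 hv).2
      have k3 : (live.filter fun v => Full C v.1).card ≤ Fu.card :=
        card_val (C := C) _ _ fun v hv => (mem_filter.1 hv).2
      omega
    · have hmul : ∀ {v : Fin C.nodes} {i j : Fin (v : ℕ)}, C.gate v = Gate.mul i j → v ∉ A := by
        intro v i j hg hv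
        obtain ⟨i', j', h⟩ := (mem_filter.1 hv).2
        rw [hg] at h
        cases h
      set Z' : Finset (Fin C.nodes) := Z.image Subtype.val with hZ'
      have hZc : Z'.card = Z.card := by
        rw [hZ']
        exact card_image_of_injective _ Subtype.val_injective
      have d1 : Disjoint A Ha := by
        rw [disjoint_right]
        intro v hv
        obtain ⟨i, j, hg, _⟩ := (mem_filter.1 hv).2
        exact hmul hg
      have d2 : Disjoint (A ∪ Ha) Fu := by
        rw [disjoint_right]
        intro v hv hv'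
        obtain ⟨i, j, hg, _, _, ci, cj⟩ := (mem_filter.1 hv).2
        rcases mem_union.1 hv' with h | h
        · exact hmul hg h
        · obtain ⟨i', j', hg', _, _, hx⟩ := (mem_filter.1 h).2
          rw [hg] at hg'
          cases hg'
          exact hx ⟨fun _ => cj, fun _ => ci⟩
      have d3 : Disjoint (A ∪ Ha ∪ Fu) Z' := by
        rw [disjoint_right]
        intro v hv hv'
        obtain ⟨w, hw, rfl⟩ := mem_image.1 hv
        obtain ⟨⟨i, j, hg, _⟩, h5, h6⟩ := (mem_filter.1 hw).2
        rcases mem_union.1 hv' with h | h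
        · rcases mem_union.1 h with h | h
          · exact hmul hg h
          · exact h5 (mem_filter.1 h).2
        · exact h6 (mem_filter.1 h).2
      have hsub : A ∪ Ha ∪ Fu ∪ Z' ⊆ univ.filter fun v => IsGate C v := by
        intro v hv
        refine mem_filter.2 ⟨mem_univ _, ?_⟩
        rcases mem_union.1 hv with h | h
        · rcases mem_union.1 h with h | h
          · rcases mem_union.1 h with h | h
            · exact Or.inl (mem_filter.1 h).2
            · obtain ⟨i, j, hg, _⟩ := (mem_filter.1 h).2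
              exact Or.inr ⟨i, j, hg⟩
          · obtain ⟨i, j, hg, _⟩ := (mem_filter.1 h).2
            exact Or.inr ⟨i, j, hg⟩
        · obtain ⟨w, _, rfl⟩ := mem_image.1 h
          exact w.2
      have k1 := card_le_card hsub
      rw [card_union_of_disjoint d3, card_union_of_disjoint d2, card_union_of_disjoint d1,
        hZc] at k1
      omega

end Pool.Agent.H706.NC
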