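import Pool.Agent.H706.NC.Abs

set_option autoImplicit false
set_option linter.unusedSectionVars false

/-!
# The inequality for two sparse codes with large distance on one matrix
-/

namespace Pool.Agent.H706.NC

open Finset Pool.Agent.W946.Sz

variable {F G R : Type*} [Field F] [Fintype G] [Fintype R] [DecidableEq G] [DecidableEq R]

open Classical in
/-- the number of the nonzero entries of a column -/
noncomputable def wt (H : G → R → F) (g : G) : ℕ := (univ.filter fun s => H g s ≠ 0).card

variable {H : G → R → F} {outs : Finset R}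

theorem row_le_wt (E : Finset R) (g : G) : (row H E g).card ≤ wt H g := by
  classical
  unfold row wt
  exact card_le_card (filter_subset_filter _ (subset_univ _))

/-- **The inequality for the rows.** -/
theorem right_ineq {b : Finset R} (hb : b ⊆ liveRows H outs \ outs)
    (hspan : ∀ s ∈ liveRows H outs \ outs,
      part H outs s ∈ Submodule.span F (part H outs '' b))
    (hwt : ∀ g, wt H g ≤ 3) {ε N : ℝ} (hε : 0 < ε) {i r : ℕ} (hi : 1 ≤ i) (hN : N ≤ (1 + ε) ^ i)
    (hbN : (b.card : ℝ) ≤ N)
    (hright : ∀ y, RightSol H outs y → y ≠ 0 → ∀ A : Finset G, (∀ g, y g ≠ 0 → g ∈ A) →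
      (1 + 3) ^ r * (4 * i + 3) ≤ A.card) :
    r * (3 * ((live H outs).card : ℝ) - (∑ s ∈ b, (eqs H (live H outs) s).card : ℕ) - b.card -
      ε * N) ≤ b.card := by
  classical
  set Ht : R → G → F := fun s g => H g s with hHt
  have hrow : ∀ s, row Ht (live H outs) s = eqs H (live H outs) s := fun s => rfl
  refine Pool.Agent.Y624.Pa.rounds' (H := Ht) (Δ := 3) hε hi hN
    (fun s => (eqs H (live H outs) s).card) r (live H outs) b (fun s _ => ?_) (fun s hs => ?_)
    (fun g _ => ?_) hbN ?_
  · rw [hrow]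
  · have := mem_sdiff.1 (hb hs)
    exact two_le this.1 this.2
  · refine le_trans (card_le_card ?_) (hwt g)
    exact filter_subset_filter _ (subset_univ _)
  · intro y hy hne
    have hy0 : ∀ g, g ∉ live H outs → y g = 0 := hy.1
    have hsol : RightSol H outs y := by
      intro s hs
      rw [← sum_live hy0]
      by_cases hsl : s ∈ liveRows H outs
      · have h1 := hspan s (mem_sdiff.2 ⟨hsl, hs⟩)
        have h2 : ∀ v ∈ Submodule.span F (part H outs '' b), ∑ g, v g * y g = 0 := by
          intro v hv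
          induction hv using Submodule.span_induction with
          | mem v hv =>
            obtain ⟨c', hc', rfl⟩ := hv
            have h3 := hy.2 c' hc'
            rw [← Finset.sum_coe_sort] at h3
            exact h3
          | zero => simp
          | add u v _ _ hu hv =>
            simp only [Pi.add_apply, add_mul, sum_add_distrib, hu, hv, add_zero]
          | smul a v _ hv =>
            simp only [Pi.smul_apply, smul_eq_mul, mul_assoc, ← mul_sum, hv, mul_zero]
        have h3 := h2 _ h1
        rw [← Finset.sum_coe_sort]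
        exact h3
      · refine sum_eq_zero fun g hg => ?_
        have : H g s = 0 := by
          by_contra h
          exact hsl (mem_liveRows.2 ⟨g, hg, h⟩)
        rw [this, zero_mul]
    refine hright y hsol hne _ fun g hg => ?_
    unfold spt
    rw [mem_filter]
    refine ⟨?_, hg⟩
    by_contra h
    exact hg (hy0 g h)

theorem eqs_split {U C : Finset G} (hUC : U ⊆ C) (s : R) :
    (eqs H U s).card + (eqs H (C \ U) s).card = (eqs H C s).card := by
  classical
  unfold eqs
  rw [← card_union_of_disjoint]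
  · rw [← filter_union, union_sdiff_of_subset hUC]
  · exact disjoint_filter_filter disjoint_sdiff

variable {X : Type*} [AddCommGroup X] [Module F X] [FiniteDimensional F X]

/-- **Two sparse codes with large distance on one matrix.** -/
theorem two_codes (Λ : X →ₗ[F] (R → F)) (hinj : Function.Injective Λ)
    (hΛ : ∀ x g, ∑ s, H g s * Λ x s = 0) (R₁ : Finset R) (hR₁ : ∀ x s, s ∉ R₁ → Λ x s = 0)
    (hR₁o : Disjoint R₁ outs) (Lt : Finset R) (C : Finset G) (hUC : live H outs ⊆ C)
    (hcount : Module.finrank F X + C.card ≤ (R₁ ∪ liveRows H outs).card) (hwt : ∀ g, wt H g ≤ 3)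
    (hdual : ∀ e ∈ outs, ∃ y : G → F, ∀ s, ∑ g, H g s * y g = if s = e then 1 else 0)
    {ε : ℝ} (hε : 0 < ε) {i r Δ N : ℕ} (hi : 1 ≤ i) (hr : 0 < r) (hN : (N : ℝ) ≤ (1 + ε) ^ i)
    (hCN : C.card ≤ N) (hdeg : ∀ s ∈ Lt, (eqs H univ s).card ≤ Δ)
    (hleft : Dist H (R₁ ∩ Lt) C ((1 + Δ) ^ r * (4 * i + 3)))
    (hright : ∀ y, RightSol H outs y → y ≠ 0 → ∀ A : Finset G, (∀ g, y g ≠ 0 → g ∈ A) →
      (1 + 3) ^ r * (4 * i + 3) ≤ A.card) :
    ∃ C' : Finset G, live H outs ⊆ C' ∧ C' ⊆ C ∧
      r * (3 * (Module.finrank F X : ℝ) + 2 * outs.card + 2 * C'.card -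
        (∑ g ∈ C', wt H g : ℕ) - 3 * (Ltᶜ).card - 2 * ε * N) ≤ 2 * N := by
  classical
  set U := live H outs with hU
  set LR := liveRows H outs with hLR
  -- the output rows are live
  have houts : outs ⊆ LR := by
    intro e he
    obtain ⟨y, hy⟩ := hdual e he
    have h1 := hy e
    rw [if_pos rfl] at h1
    obtain ⟨g, _, hg⟩ := exists_ne_zero_of_sum_ne_zero (h1.trans_ne one_ne_zero)
    refine mem_liveRows.2 ⟨g, mem_live.2 ⟨y, fun s hs => ?_, right_ne_zero_of_mul hg⟩,
      left_ne_zero_of_mul hg⟩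
    rw [hy, if_neg]
    rintro rfl
    exact hs he
  -- the stage
  obtain ⟨E, C', g1, g2, g3, g4, g5, g6, g7, g8⟩ := stage (H := H) (Δ := Δ) (T := 4 * i + 3)
    (r := r) (N := N) (by omega) hr U r (R₁ ∩ Lt) C hUC
    (fun e he => (card_le_card (filter_subset_filter _ (subset_univ _))).trans
      (hdeg e (mem_inter.1 he).2))
    (fun e he hc => two_le (mem_liveRows.2 hc) fun h =>
      disjoint_left.1 hR₁o (mem_inter.1 he).1 h)
    (Nat.mul_le_mul_left _ hCN) hleft
  have hC'N : C'.card ≤ N := (card_le_card g2).trans hCN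
  have hpos := pos_of_dist (H := H) (g4.mono (show 2 ≤ 4 * i + 3 by omega))
  -- the weights
  set W : R → ℕ := fun s => (eqs H C' s).card with hW
  set Z : Finset R := univ.filter fun s => 3 ≤ W s with hZ
  have hmemZ : ∀ s, s ∈ Z ↔ 3 ≤ W s := fun s => by rw [hZ, mem_filter]; simp
  set E' := LR \ outs with hE'
  obtain ⟨b, hbE, hind, hspan, hgr⟩ := greedy H outs (A := E' \ Z) (E := E') sdiff_subset
  set B' := E' \ b with hB'
  set B := B'.filter fun s => 3 ≤ W s with hB
  set DR := (R₁ \ LR) \ ((R₁ ∩ Lt) \ E) with hDR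
  set DZ := DR.filter fun s => 3 ≤ W s with hDZ
  -- (b)
  have kb : b.card + outs.card ≤ U.card := card_basis
    (disjoint_left.2 fun s hs hs' => (mem_sdiff.1 (hbE hs)).2 hs') hind hdual
  -- (a)
  have ka := right_ineq hbE hspan hwt hε hi (N := N) (r := r) hN
    (by exact_mod_cast (show b.card ≤ N by
      have := card_le_card hUC
      omega)) hright
  -- (c)
  have kc : ∑ s ∈ b, (eqs H U s).card + ∑ s ∈ B', (eqs H U s).card + outs.card ≤
      ∑ g ∈ U, wt H g := by
    have h1 : ∑ s ∈ b, (eqs H U s).card + ∑ s ∈ B', (eqs H U s).card =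
        ∑ s ∈ E', (eqs H U s).card := by
      rw [hB', ← sum_sdiff hbE, add_comm]
    have h2 : outs.card ≤ ∑ s ∈ outs, (eqs H U s).card := by
      rw [card_eq_sum_ones]
      refine sum_le_sum fun s hs => ?_
      obtain ⟨g, hg, hg'⟩ := mem_liveRows.1 (houts hs)
      exact card_pos.2 ⟨g, mem_filter.2 ⟨hg, hg'⟩⟩
    have h3 : ∑ s ∈ E', (eqs H U s).card + ∑ s ∈ outs, (eqs H U s).card =
        ∑ s ∈ LR, (eqs H U s).card := by
      rw [hE', ← sum_sdiff houts]
    have h4 : ∑ s ∈ LR, (eqs H U s).card ≤ ∑ g ∈ U, wt H g := by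
      rw [count_inc]
      exact sum_le_sum fun g _ => row_le_wt _ g
    omega
  -- the dead rows are not live
  have hDRl : ∀ s ∈ DR, s ∉ LR := fun s hs => (mem_sdiff.1 (mem_sdiff.1 hs).1).2
  have hDR0 : ∀ s ∈ DR, (eqs H U s).card = 0 := by
    intro s hs
    rw [card_eq_zero]
    unfold eqs
    rw [filter_eq_empty_iff]
    intro g hg h
    exact hDRl s hs (mem_liveRows.2 ⟨g, hg, h⟩)
  have hsplit := fun s => eqs_split (H := H) g3 s
  -- (d)
  have kd : ∑ s ∈ DR, W s + ∑ s ∈ B', (eqs H (C' \ U) s).card ≤ ∑ g ∈ C' \ U, wt H g := by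
    have h1 : ∑ s ∈ DR, W s = ∑ s ∈ DR, (eqs H (C' \ U) s).card := by
      refine sum_congr rfl fun s hs => ?_
      have h2 := hsplit s
      have h3 := hDR0 s hs
      rw [hW]
      beta_reduce
      omega
    have h2 : Disjoint DR B' := by
      rw [disjoint_left]
      intro s hs hs'
      exact hDRl s hs (mem_sdiff.1 (mem_sdiff.1 hs').1).1
    rw [h1, ← sum_union h2, count_inc]
    exact sum_le_sum fun g _ => row_le_wt _ g
  -- (e)
  have ke : 2 * DR.card + DZ.card ≤ ∑ s ∈ DR, W s + 2 * (Ltᶜ).card + (ones H E C').card := by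
    have h1 : ∑ s ∈ DR, (2 + if 3 ≤ W s then 1 else 0) ≤
        ∑ s ∈ DR, (W s + 2 * (if s ∈ Lt then 0 else 1) +
          if s ∈ ones H E C' then 1 else 0) := by
      refine sum_le_sum fun s hs => ?_
      by_cases hsL : s ∈ Lt
      · have hsE : s ∈ E := by
          by_contra h
          rw [hDR, mem_sdiff, mem_sdiff] at hs
          exact hs.2 (mem_sdiff.2 ⟨mem_inter.2 ⟨hs.1.1, hsL⟩, h⟩)
        have h2 : 1 ≤ W s := hpos s hsE
        by_cases h3 : W s = 1
        · have h4 : s ∈ ones H E C' := mem_filter.2 ⟨hsE, h3⟩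
          rw [if_pos hsL, if_pos h4, if_neg (by omega)]
          omega
        · split_ifs <;> omega
      · rw [if_neg hsL]
        split_ifs <;> omega
    rw [sum_add_distrib, sum_add_distrib, sum_add_distrib, sum_const, smul_eq_mul] at h1
    have h0 : ∑ s ∈ DR, (if 3 ≤ W s then 1 else 0) = DZ.card := by rw [hDZ, card_filter]
    have h2 : ∑ s ∈ DR, 2 * (if s ∈ Lt then 0 else 1) ≤ 2 * (Ltᶜ).card := by
      rw [← mul_sum]
      refine Nat.mul_le_mul_left _ ?_
      have : ∀ s ∈ DR, (if s ∈ Lt then 0 else 1) = if s ∉ Lt then 1 else 0 := by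
        intro s _
        by_cases h : s ∈ Lt
        · rw [if_pos h, if_neg (not_not.2 h)]
        · rw [if_neg h, if_pos h]
      rw [sum_congr rfl this, ← card_filter]
      refine card_le_card fun s hs => ?_
      rw [mem_compl]
      exact (mem_filter.1 hs).2
    have h3 : ∑ s ∈ DR, (if s ∈ ones H E C' then 1 else 0) ≤ (ones H E C').card := by
      rw [← card_filter]
      refine card_le_card fun s hs => (mem_filter.1 hs).2
    omega
  -- (f)
  have kf : 2 * B'.card + B.card ≤ ∑ s ∈ B', (eqs H U s).card +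
      ∑ s ∈ B', (eqs H (C' \ U) s).card := by
    rw [← sum_add_distrib]
    have h1 : ∑ s ∈ B', (2 + if 3 ≤ W s then 1 else 0) ≤
        ∑ s ∈ B', ((eqs H U s).card + (eqs H (C' \ U) s).card) := by
      refine sum_le_sum fun s hs => ?_
      have h2 := hsplit s
      have h3 : 2 ≤ (eqs H U s).card := by
        have := mem_sdiff.1 (mem_sdiff.1 hs).1
        exact two_le this.1 this.2
      have h4 : (eqs H C' s).card = W s := rfl
      split_ifs <;> omega
    rw [sum_add_distrib, sum_const, smul_eq_mul] at h1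
    have h0 : ∑ s ∈ B', (if 3 ≤ W s then 1 else 0) = B.card := by rw [hB, card_filter]
    omega
  -- (h)
  have kh : LR.card ≤ B'.card + U.card := by
    have h1 : B'.card + b.card = E'.card := card_sdiff_add_card_eq_card hbE
    have h2 : E'.card + outs.card = LR.card := card_sdiff_add_card_eq_card houts
    omega
  -- (i)
  have ki : Module.finrank F X + C'.card ≤ DR.card + LR.card := by
    have h1 : (R₁ ∩ Lt) \ E ⊆ R₁ \ LR := by
      intro s hs
      rw [mem_sdiff]
      refine ⟨(mem_inter.1 (mem_sdiff.1 hs).1).1, fun h => ?_⟩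
      obtain ⟨g, hg, h2⟩ := mem_liveRows.1 h
      exact h2 (g6 g (g3 hg) s hs)
    have h2 : DR.card + ((R₁ ∩ Lt) \ E).card = (R₁ \ LR).card := card_sdiff_add_card_eq_card h1
    have h3 : ((R₁ ∩ Lt) \ E).card + E.card = (R₁ ∩ Lt).card := card_sdiff_add_card_eq_card g1
    have h4 : (R₁ ∪ LR).card = (R₁ \ LR).card + LR.card := by
      rw [← card_union_of_disjoint sdiff_disjoint, sdiff_union_self_eq_union]
    omega
  -- (g)
  have kg : (Module.finrank F X : ℝ) ≤ B.card + DZ.card + (Ltᶜ).card + ε * N := by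
    set T : Finset R := B ∪ DZ ∪ Ltᶜ with hT
    set Θ : X →ₗ[F] (T → F) := LinearMap.pi fun e => (LinearMap.proj (e : R)).comp Λ with hΘ
    have hΘe : ∀ x (e : T), Θ x e = Λ x e := fun x e => rfl
    have h1 := LinearMap.finrank_range_add_finrank_ker Θ
    have h2 : Module.finrank F (LinearMap.range Θ) ≤ T.card := by
      have := Submodule.finrank_le (LinearMap.range Θ)
      rwa [Module.finrank_fintype_fun_eq_card, Fintype.card_coe] at this
    have h3 : T.card ≤ B.card + DZ.card + (Ltᶜ).card :=
      (card_union_le _ _).trans (Nat.add_le_add_right (card_union_le _ _) _)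
    set φ₀ : (R → F) →ₗ[F] (R → F) := LinearMap.pi fun e =>
      if e ∈ E then LinearMap.proj e else 0 with hφ₀
    have hφ₀e : ∀ (x : R → F) (e : R), φ₀ x e = if e ∈ E then x e else 0 := by
      intro x e
      rw [hφ₀, LinearMap.pi_apply]
      split_ifs <;> rfl
    set φ : LinearMap.ker Θ →ₗ[F] (R → F) := (φ₀.comp Λ).comp (Submodule.subtype _) with hφ
    have hφe : ∀ (x : LinearMap.ker Θ) (e : R), φ x e = if e ∈ E then Λ x e else 0 := by
      intro x e
      rw [← hφ₀e]
      rfl
    have hker : ∀ (x : LinearMap.ker Θ), ∀ e ∈ T, Λ x e = 0 := by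
      intro x e he
      have h4 := x.2
      rw [LinearMap.mem_ker] at h4
      exact congrFun h4 ⟨e, he⟩
    -- the rows which do not occur
    have hout : ∀ (x : LinearMap.ker Θ), ∀ e, e ∉ R₁ ∩ Lt → Λ x e = 0 := by
      intro x e he
      by_cases h4 : e ∈ R₁
      · refine hker x e (mem_union_right _ ?_)
        rw [mem_compl]
        exact fun h5 => he (mem_inter.2 ⟨h4, h5⟩)
      · exact hR₁ x e h4
    have hsum : ∀ (x : LinearMap.ker Θ), ∀ c, ∑ e ∈ R₁ ∩ Lt, H c e * Λ x e = 0 := by
      intro x c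
      rw [← hΛ x c]
      refine sum_subset (subset_univ _) fun e _ he => ?_
      rw [hout x e he, mul_zero]
    -- rows in `E'` with three entries
    have hgreedy : ∀ (x : LinearMap.ker Θ), ∀ e ∈ E', 3 ≤ W e → Λ x e = 0 := by
      intro x e he hWe
      refine hgr (Λ x) ?_ ?_ e ?_
      · -- the combination of the live parts
        funext g
        rw [Finset.sum_apply]
        have h4 := hΛ (x : X) (g : G)
        rw [Pi.zero_apply, ← h4]
        refine (sum_congr rfl fun s _ => ?_).trans (sum_subset (subset_univ _) fun s _ hs => ?_)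
        · rw [Pi.smul_apply, smul_eq_mul, mul_comm]
          rfl
        · by_cases h5 : s ∈ LR
          · have h6 : s ∈ outs := by
              by_contra h6
              exact hs (mem_sdiff.2 ⟨h5, h6⟩)
            rw [hR₁ x s fun h7 => disjoint_left.1 hR₁o h7 h6, mul_zero]
          · have h6 : H g s = 0 := by
              by_contra h6
              exact h5 (mem_liveRows.2 ⟨g, g.2, h6⟩)
            rw [h6, zero_mul]
      · intro s hs hsb
        rw [mem_sdiff] at hs
        have hsZ : s ∈ Z := by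
          by_contra h
          exact hs.2 (mem_sdiff.2 ⟨hs.1, h⟩)
        refine hker x s (mem_union_left _ (mem_union_left _ ?_))
        rw [hB, mem_filter]
        exact ⟨mem_sdiff.2 ⟨hs.1, hsb⟩, (hmemZ s).1 hsZ⟩
      · rw [mem_sdiff]
        exact ⟨he, fun h => (mem_sdiff.1 h).2 ((hmemZ e).2 hWe)⟩
    have h4 := dim_light (H := H) (P := E.filter fun e => (eqs H C' e).card ≤ 2) (E := E)
      (C := C') (filter_subset _ _) (fun e he => (mem_filter.1 he).2) hε hi
      (le_trans (by exact_mod_cast hC'N) hN) g4 φ ?_ ?_ ?_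
    · have h5 : (Module.finrank F (LinearMap.ker Θ) : ℝ) ≤ ε * N :=
        h4.trans (mul_le_mul_of_nonneg_left (by exact_mod_cast hC'N) hε.le)
      have h6 : Module.finrank F X ≤ (B.card + DZ.card + (Ltᶜ).card) +
          Module.finrank F (LinearMap.ker Θ) := by omega
      have h7 : (Module.finrank F X : ℝ) ≤ (B.card + DZ.card + (Ltᶜ).card) +
          Module.finrank F (LinearMap.ker Θ) := by exact_mod_cast h6
      linarith
    · -- injectivity
      rw [injective_iff_map_eq_zero]
      intro x hx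
      have h5 : ∀ e ∈ E, Λ x e = 0 := by
        intro e he
        have h6 := congrFun hx e
        rwa [hφe, if_pos he] at h6
      have h6 := g7 (Λ x) ⟨hout x, fun c _ => hsum x c⟩ h5
      apply Subtype.ext
      exact (injective_iff_map_eq_zero Λ).1 hinj _ h6
    · -- solutions
      intro x
      refine ⟨fun e he => ?_, fun c hc => ?_⟩
      · rw [hφe, if_neg he]
      · rw [← hsum x c, ← sum_sdiff g1]
        have h5 : ∑ e ∈ (R₁ ∩ Lt) \ E, H c e * Λ x e = 0 :=
          sum_eq_zero fun e he => by rw [g6 c hc e he, zero_mul]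
        rw [h5, zero_add]
        exact sum_congr rfl fun e he => by rw [hφe, if_pos he]
    · -- the support
      intro x e he
      rw [hφe]
      by_cases heE : e ∈ E
      · rw [if_pos heE]
        have hWe : 3 ≤ W e := by
          by_contra h5
          exact he (mem_filter.2 ⟨heE, by
            have h6 : W e = (eqs H C' e).card := rfl
            omega⟩)
        have heR : e ∈ R₁ := (mem_inter.1 (g1 heE)).1
        by_cases h5 : e ∈ LR
        · exact hgreedy x e (mem_sdiff.2 ⟨h5, fun h6 => disjoint_left.1 hR₁o heR h6⟩) hWe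
        · refine hker x e (mem_union_left _ (mem_union_right _ ?_))
          rw [hDZ, mem_filter, hDR, mem_sdiff, mem_sdiff]
          exact ⟨⟨⟨heR, h5⟩, fun h6 => (mem_sdiff.1 h6).2 heE⟩, hWe⟩
      · rw [if_neg heE]
  refine ⟨C', g3, g2, ?_⟩
  have hs : ∑ g ∈ C', wt H g = ∑ g ∈ U, wt H g + ∑ g ∈ C' \ U, wt H g := by
    rw [add_comm, sum_sdiff g3]
  rw [hs]
  set SU := ∑ g ∈ U, wt H g
  set SD := ∑ g ∈ C' \ U, wt H g
  set Wb := ∑ s ∈ b, (eqs H U s).card
  set Wp := ∑ s ∈ B', (eqs H U s).card
  set Ap := ∑ s ∈ B', (eqs H (C' \ U) s).card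
  set WD := ∑ s ∈ DR, W s
  have hrr : (0 : ℝ) < r := by exact_mod_cast hr
  have q1 : (b.card : ℝ) ≤ N := by
    have := card_le_card hUC
    exact_mod_cast (show b.card ≤ N by omega)
  have q2 : (r : ℝ) * (ones H E C').card ≤ N := by exact_mod_cast g8
  have qb : (b.card : ℝ) + outs.card ≤ U.card := by exact_mod_cast kb
  have qS : (2 * DR.card + DZ.card + 2 * B'.card + B.card + Wb + outs.card : ℝ) ≤
      SU + SD + 2 * (Ltᶜ).card + (ones H E C').card := by
    have : 2 * DR.card + DZ.card + 2 * B'.card + B.card + Wb + outs.card ≤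
      SU + SD + 2 * (Ltᶜ).card + (ones H E C').card := by omega
    exact_mod_cast this
  have qh : (LR.card : ℝ) ≤ B'.card + U.card := by exact_mod_cast kh
  have qi : (Module.finrank F X : ℝ) + C'.card ≤ DR.card + LR.card := by exact_mod_cast ki
  push_cast
  have e1 : 3 * (Module.finrank F X : ℝ) + 2 * outs.card + 2 * C'.card - (SU + SD) -
      3 * (Ltᶜ).card - 2 * ε * N ≤
      (3 * (U.card : ℝ) - Wb - b.card - ε * N) + (ones H E C').card := by
    linarith
  have e2 := mul_le_mul_of_nonneg_left e1 hrr.le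
  rw [mul_add] at e2
  linarith

end Pool.Agent.H706.NC
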