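import Pool.Agent.H706.NC.Circ
import Pool.Graph.R_seed8.W946.SzFin

set_option autoImplicit false

/-!
# The lower bounds
-/

namespace Pool.Agent.H706.NC

open Finset Pool.Agent.H88R3.MM Pool.Agent.W946.Kos Pool.Agent.W946.Sz Pool.Agent.H522R2
  Pool.Agent.H522R2.Circuit
open Pool.Agent.H706.HC (cst qp quadPart quadPart_entry Has has_zero has_one has_two reach_gate
  quad quad_lower outs D2_entry_diag' addCount IsProd pd_nonscalar)

/-- the choice of the parameter -/
theorem pick' {K : ℕ} (hK : 0 < K) {η : ℝ} (hη : 0 < η) (c : ℝ) :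
    ∃ m₀ : ℕ, ∀ m : ℕ, m₀ ≤ m → ∃ i : ℕ, 1 ≤ i ∧ K * (4 * i + 3) ≤ m ∧
      c * (m : ℝ) ^ 2 ≤ (1 + η) ^ i := by
  obtain ⟨j, hj⟩ := pow_unbounded_of_one_lt (c / 8) (show (1 : ℝ) < 1 + η by linarith)
  obtain ⟨m₀, h⟩ := pick (K := K * (1 + 4 * j)) (by positivity) hη
  refine ⟨m₀, fun m hm => ?_⟩
  obtain ⟨i, hi, hT, hp⟩ := h m hm
  refine ⟨i + j, by omega, le_trans ?_ hT, ?_⟩
  · rw [mul_assoc]
    refine Nat.mul_le_mul_left _ ?_
    nlinarith
  · have h1 : c * (m : ℝ) ^ 2 = (c / 8) * (8 * (m : ℝ) ^ 2) := by ring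
    rw [h1, pow_add, mul_comm ((1 + η) ^ i)]
    have h2 : (0 : ℝ) ≤ 8 * (m : ℝ) ^ 2 := by positivity
    exact mul_le_mul hj.le hp h2 (by positivity)

section total

variable {F : Type*} [Field F] {m : ℕ} {C : Circuit F (Vars m)}

theorem entry_ne_zero (i j : Fin m) : entry F m i j ≠ 0 := by
  intro h0
  have h1 := congrArg (D2 (Sum.inl (i, i)) (Sum.inr (i, j))) h0
  rw [D2_entry_diag'] at h1
  simp only [if_true, and_self] at h1
  unfold D2 at h1
  simp at h1

/-- The circuit computes the product of two generic `m × m` matrices up to constants and terms of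
degree at least three. -/
def Comp (C : Circuit F (Vars m)) : Prop :=
  ∀ i j, ∃ k : Fin C.nodes, MvPolynomial.homogeneousComponent 1 (C.poly k) = 0 ∧
    MvPolynomial.homogeneousComponent 2 (C.poly k) = entry F m i j

/-- the outputs -/
theorem exists_out (hC : Comp C) : ∃ out : Fin m → Fin m → Gts C,
    (∀ i j, (prog C).Q (out i j) = entry F m i j) ∧ ∀ o ∈ outs out, (prog C).L o = 0 := by
  classical
  choose k hk1 hk2 using hC
  have hq : ∀ i j, qp C (k i j) = entry F m i j := by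
    intro i j
    rw [qp, quadPart, Pool.Agent.H706.HC.scale_coeff, hk2]
  refine ⟨fun i j => ⟨k i j, reach_gate (by rw [hq]; exact entry_ne_zero i j)⟩, hq, ?_⟩
  intro o ho
  obtain ⟨⟨i, j⟩, _, rfl⟩ := mem_image.1 ho
  have h1 : ¬ Has 1 (C.poly (k i j)) := fun h => h (hk1 i j)
  rw [has_one] at h1
  exact not_not.1 h1

/-- all inequalities together -/
theorem total (hC : Comp C) {η : ℝ}
    (hη : 0 < η) {i Δ r : ℕ} (hΔ : 0 < Δ) (hr : 0 < r) (hi : 1 ≤ i)
    (hN : (C.size : ℝ) ≤ (1 + η) ^ i)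
    (hT : Δ * ((1 + Δ) ^ r * (4 * i + 3)) ≤ m) (hT' : 2 * ((1 + 3) ^ r * (4 * i + 3)) ≤ m) :
    ∃ z : ℕ, quad F m ≤ z + halfCount C + fullCount C ∧
      addCount C + halfCount C + fullCount C + z ≤ C.size ∧
      8 * (m : ℝ) ^ 2 + z ≤ addCount C + fullCount C +
        (15 * C.size / (Δ + 1) + 2 * C.size / r + 2 * η * C.size) := by
  classical
  obtain ⟨out, hQ, hL⟩ := exists_out hC
  have h1 := Prg.main (P := prog C) (outs out) hL hη (i := i) (r := r) (Δ := Δ) (N := C.size)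
    (m := m) hi hr hΔ hN (card_Gts C).le (active hQ hL) hT (rich hQ hT')
  have h2 := Prg.heavy (P := prog C) Δ
  have h3 := quad_le (P := prog C) (out := out) hQ hL
  obtain ⟨h4, z, h5, h6, h7⟩ := counts C ((prog C).live' (outs out))
  refine ⟨z, h3.trans h6, h7, ?_⟩
  have hV : (Fintype.card (Vars m) : ℝ) = 2 * (m : ℝ) ^ 2 := by
    rw [Fintype.card_sum, Fintype.card_prod, Fintype.card_fin]
    push_cast
    ring
  rw [hV, card_outs hQ] at h1
  rw [card_Gts] at h2
  set zz := (((prog C).live' (outs out)).filter fun g => ((prog C).ops g).card = 0).card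
  set tw := (univ.filter fun g => ((prog C).ops g).card = 2).card
  set hv := (((prog C).light Δ)ᶜ).card
  have h2' : ((Δ : ℝ) + 1) * hv ≤ 5 * C.size := by exact_mod_cast h2
  have h4' : (tw : ℝ) ≤ addCount C + fullCount C := by exact_mod_cast h4
  have h5' : (z : ℝ) ≤ zz := by exact_mod_cast h5
  have hrr : (0 : ℝ) < r := by exact_mod_cast hr
  have hΔr : (0 : ℝ) < (Δ : ℝ) + 1 := by positivity
  push_cast at h1
  have k1 : 3 * (2 * (m : ℝ) ^ 2) + 2 * (m : ℝ) ^ 2 + zz - tw - 3 * hv - 2 * η * C.size ≤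
      2 * C.size / r := by
    rw [le_div_iff₀ hrr, mul_comm]
    exact h1
  have k2 : 3 * (hv : ℝ) ≤ 15 * C.size / (Δ + 1) := by
    rw [le_div_iff₀ hΔr]
    linarith
  linarith

/-- the number of the nonscalar multiplications -/
theorem quad_le_nonscalar (C : Circuit F (Vars m)) (hC : Comp C) :
    quad F m ≤ C.nonscalarCount := by
  classical
  obtain ⟨out, hQ, hL⟩ := exists_out hC
  refine (quad_le (P := prog C) (out := out) hQ hL).trans ?_
  unfold nonscalarCount
  rw [← Fintype.card_coe, ← Nat.card_eq_fintype_card]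
  refine Nat.card_le_card_of_injective
    (fun v => ⟨v.1.1, pd_nonscalar (mem_filter.1 v.2).2⟩) fun v w h => ?_
  apply Subtype.ext
  apply Subtype.ext
  exact (Subtype.mk.inj h :)

end total

universe u

/-- **The lower bounds for circuits with `O(m ^ 2)` gates.** -/
theorem small (δ : ℝ) (hδ : 0 < δ) (K : ℝ) : ∃ m₀ : ℕ, ∀ (F : Type u) [Field F] (m : ℕ)
    (C : Circuit F (Vars m)), m₀ ≤ m → Comp C → (C.size : ℝ) ≤ K * (m : ℝ) ^ 2 →
    ∃ z : ℕ, quad F m ≤ z + halfCount C + fullCount C ∧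
      addCount C + halfCount C + fullCount C + z ≤ C.size ∧
      (8 - δ) * (m : ℝ) ^ 2 + z ≤ addCount C + fullCount C := by
  set L : ℝ := max K 1 with hL
  have hL1 : 1 ≤ L := le_max_right _ _
  have hL0 : 0 < L := by linarith
  set η : ℝ := δ / (8 * L) with hηdef
  have hη : 0 < η := by positivity
  obtain ⟨Δ, hΔ⟩ := exists_nat_gt (60 * L / δ)
  have hΔ0 : 0 < Δ := by
    have : (0 : ℝ) < Δ := lt_trans (by positivity) hΔ
    exact_mod_cast this
  obtain ⟨r, hr⟩ := exists_nat_gt (8 * L / δ)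
  have hr0 : 0 < r := by
    have : (0 : ℝ) < r := lt_trans (by positivity) hr
    exact_mod_cast this
  obtain ⟨m₀, hm₀⟩ := pick' (K := Δ * (1 + Δ) ^ r + 2 * (1 + 3) ^ r) (by positivity) hη L
  refine ⟨max m₀ 2, fun F _ m C hm hC hs => ?_⟩
  obtain ⟨i, hi, hT, hp⟩ := hm₀ m (le_trans (le_max_left _ _) hm)
  have hm2 : 2 ≤ m := le_trans (le_max_right _ _) hm
  set M : ℝ := (m : ℝ) ^ 2 with hM
  have hM0 : 0 < M := by
    have : (0 : ℝ) < m := by exact_mod_cast (show 0 < m by omega)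
    positivity
  have hs' : (C.size : ℝ) ≤ L * M := hs.trans (mul_le_mul_of_nonneg_right (le_max_left _ _) hM0.le)
  obtain ⟨z, h1, h2, h3⟩ := total (C := C) hC hη hΔ0 hr0 hi (hs'.trans hp)
    (by
      refine le_trans ?_ hT
      rw [← mul_assoc]
      exact Nat.mul_le_mul_right _ (Nat.le_add_right _ _))
    (by
      refine le_trans ?_ hT
      rw [← mul_assoc]
      exact Nat.mul_le_mul_right _ (Nat.le_add_left _ _))
  refine ⟨z, h1, h2, ?_⟩
  rw [← hM] at h3
  have hrr : (0 : ℝ) < r := by exact_mod_cast hr0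
  have e1 : 15 * (C.size : ℝ) / (Δ + 1) ≤ δ / 4 * M := by
    rw [div_le_iff₀ (by positivity)]
    rw [div_lt_iff₀ hδ] at hΔ
    nlinarith
  have e2 : 2 * (C.size : ℝ) / r ≤ δ / 4 * M := by
    rw [div_le_iff₀ hrr]
    rw [div_lt_iff₀ hδ] at hr
    nlinarith
  have e3 : 2 * η * (C.size : ℝ) ≤ δ / 4 * M := by
    have : 2 * η * (L * M) = δ / 4 * M := by
      rw [hηdef]
      field_simp
      ring
    rw [← this]
    exact mul_le_mul_of_nonneg_left hs' (by positivity)
  have h5 : 0 < δ * M := mul_pos hδ hM0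
  linarith

/-- **The lower bounds for the size.** -/
theorem size_all (δ : ℝ) (hδ : 0 < δ) : ∃ m₀ : ℕ, ∀ (F : Type u) [Field F] (m : ℕ)
    (C : Circuit F (Vars m)), m₀ ≤ m → Comp C →
    (11 - δ) * (m : ℝ) ^ 2 ≤ C.size + fullCount C ∧
    (14 - δ) * (m : ℝ) ^ 2 ≤ C.size + halfCount C + 2 * fullCount C := by
  obtain ⟨m₁, h₁⟩ := small.{u} (δ / 2) (by positivity) 14
  obtain ⟨m₂, h₂⟩ := quad_lower.{u} (δ / 4) (by positivity)
  refine ⟨max m₁ m₂, fun F _ m C hm hC => ?_⟩
  have h0 : (0 : ℝ) ≤ halfCount C := Nat.cast_nonneg _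
  have h0' : (0 : ℝ) ≤ fullCount C := Nat.cast_nonneg _
  have h5 : (0 : ℝ) ≤ (m : ℝ) ^ 2 := by positivity
  have h6 := mul_nonneg hδ.le h5
  rcases le_total (C.size : ℝ) (14 * (m : ℝ) ^ 2) with h | h
  · obtain ⟨z, k1, k2, k3⟩ := h₁ F m C (le_trans (le_max_left _ _) hm) hC h
    have h2 := h₂ F m (le_trans (le_max_right _ _) hm)
    have k1' : (quad F m : ℝ) ≤ z + halfCount C + fullCount C := by exact_mod_cast k1
    have k2' : (addCount C : ℝ) + halfCount C + fullCount C + z ≤ C.size := by exact_mod_cast k2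
    have h7 : (0 : ℝ) ≤ z := Nat.cast_nonneg _
    constructor
    · nlinarith
    · nlinarith
  · constructor
    · nlinarith
    · nlinarith

section without

variable {F : Type*} [Field F] {m : ℕ} {C : Circuit F (Vars m)}

theorem not_nz_of_const {v : Fin C.nodes} {c : F} (h : C.poly v = MvPolynomial.C c) :
    ¬ (Has 1 (C.poly v) ∨ Has 2 (C.poly v)) := by
  rw [h, has_two, Pool.Agent.H706.HC.quadPart_C, has_one]
  simp only [D1_C, ne_eq, not_true_eq_false, or_false, not_not]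
  rfl

theorem half_zero
    (h : ∀ v, MvPolynomial.constantCoeff (C.poly v) ≠ 0 → ∃ c, C.poly v = MvPolynomial.C c) :
    halfCount C = 0 := by
  unfold halfCount
  rw [Nat.card_eq_zero]
  left
  refine ⟨fun ⟨v, i, j, _, h1, h2, h3⟩ => h3 ⟨fun h4 => ?_, fun h4 => ?_⟩⟩
  · obtain ⟨c, hc⟩ := h _ ((has_zero _).1 h4)
    exact absurd (Or.inl h1) (not_nz_of_const hc)
  · obtain ⟨c, hc⟩ := h _ ((has_zero _).1 h4)
    exact absurd (Or.inl h2) (not_nz_of_const hc)

theorem full_zero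
    (h : ∀ v, MvPolynomial.constantCoeff (C.poly v) ≠ 0 → ∃ c, C.poly v = MvPolynomial.C c) :
    fullCount C = 0 := by
  unfold fullCount
  rw [Nat.card_eq_zero]
  left
  refine ⟨fun ⟨v, i, j, _, h1, _, h3, _⟩ => ?_⟩
  obtain ⟨c, hc⟩ := h _ ((has_zero _).1 h3)
  exact not_nz_of_const hc h1

end without

end Pool.Agent.H706.NC
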