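import Pool.Agent.H706.NC.Comb
import Pool.Agent.H706.HC.Quad

set_option autoImplicit false
set_option linter.unusedSectionVars false

/-!
# Programs up to second order
-/

namespace Pool.Agent.H706.NC

open Finset Pool.Agent.H88R3.MM Pool.Agent.W946.Kos Pool.Agent.W946.Sz
open Pool.Agent.H706.HC (form form_zero form_hom D2_form D2_smul vc)

open Classical in
/-- a program up to second order; the symbols are the variables and the steps -/
structure Prg (F V Gt : Type*) [Field F] [Fintype V] [DecidableEq V] [Fintype Gt]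
    [LinearOrder Gt] where
  L : Gt → V → F
  Q : Gt → MvPolynomial V F
  cf : Gt → V ⊕ Gt → F
  cf_lt : ∀ g h, cf g (Sum.inr h) ≠ 0 → h < g
  cf_card : ∀ g, (univ.filter fun s => cf g s ≠ 0).card ≤ 2
  pd : Gt → Prop
  sa : Gt → V ⊕ Gt
  sb : Gt → V ⊕ Gt
  L_eq : ∀ g, L g = ∑ s, cf g s • vc L s
  Q_eq : ∀ g, Q g = ∑ h, cf g (Sum.inr h) • Q h +
    if pd g then form (vc L (sa g)) * form (vc L (sb g)) else 0

variable {F V Gt : Type*} [Field F] [Fintype V] [DecidableEq V] [Fintype Gt] [LinearOrder Gt]

namespace Prg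

variable (P : Prg F V Gt)

open Classical in
/-- the product of a step -/
noncomputable def pr (g : Gt) : MvPolynomial V F :=
  if P.pd g then form (vc P.L (P.sa g)) * form (vc P.L (P.sb g)) else 0

/-- the matrix of the program -/
def Hm (g : Gt) (s : V ⊕ Gt) : F := (if s = Sum.inr g then 1 else 0) - P.cf g s

open Classical in
/-- the operands of a step -/
noncomputable def ops (g : Gt) : Finset (V ⊕ Gt) := univ.filter fun s => P.cf g s ≠ 0

theorem mem_ops {g : Gt} {s : V ⊕ Gt} : s ∈ P.ops g ↔ P.cf g s ≠ 0 := by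
  classical
  unfold ops
  simp

theorem ops_card (g : Gt) : (P.ops g).card ≤ 2 := P.cf_card g

theorem cf_self (g : Gt) : P.cf g (Sum.inr g) = 0 := by
  by_contra h
  exact lt_irrefl _ (P.cf_lt g g h)

theorem Hm_self (g : Gt) : P.Hm g (Sum.inr g) = 1 := by
  rw [Hm, if_pos rfl, P.cf_self, sub_zero]

theorem wt_le (g : Gt) : wt P.Hm g ≤ 1 + (P.ops g).card := by
  classical
  unfold wt
  refine (card_le_card (t := insert (Sum.inr g) (P.ops g)) fun s hs => ?_).trans
    ((card_insert_le _ _).trans (by omega))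
  rw [mem_filter] at hs
  rw [mem_insert, P.mem_ops]
  by_cases h : s = Sum.inr g
  · exact Or.inl h
  · right
    intro h0
    apply hs.2
    rw [Hm, if_neg h, h0, sub_zero]

theorem lin_rel (g : Gt) : ∑ s, P.Hm g s • vc P.L s = 0 := by
  simp only [Hm, sub_smul, sum_sub_distrib, ite_smul, one_smul, zero_smul, sum_ite_eq', mem_univ,
    if_true]
  rw [← P.L_eq g]
  exact sub_self _

theorem dual_identity (y : Gt → F) :
    ∑ e, (∑ g, P.Hm g (Sum.inr e) * y g) • P.Q e = ∑ g, y g • P.pr g := by
  have h1 : ∀ g, y g • P.pr g = y g • P.Q g - ∑ e, (y g * P.cf g (Sum.inr e)) • P.Q e := by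
    intro g
    have h2 : P.Q g = ∑ h, P.cf g (Sum.inr h) • P.Q h + P.pr g := P.Q_eq g
    have h3 : P.pr g = P.Q g - ∑ h, P.cf g (Sum.inr h) • P.Q h := eq_sub_of_add_eq' h2.symm
    rw [h3, smul_sub, smul_sum]
    simp only [smul_smul]
  have h2 : ∀ e, (∑ g, P.Hm g (Sum.inr e) * y g) • P.Q e = y e • P.Q e -
      ∑ g, (y g * P.cf g (Sum.inr e)) • P.Q e := by
    intro e
    simp only [Hm, sub_mul, sum_sub_distrib, Sum.inr.injEq, ite_mul, one_mul, zero_mul,
      sum_ite_eq, mem_univ, if_true, sub_smul, sum_smul]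
    congr 1
    exact sum_congr rfl fun g _ => by rw [mul_comm]
  simp only [h1, h2, sum_sub_distrib]
  congr 1
  exact sum_comm

theorem dual_zero {y : Gt → F} (h : ∀ e, ∑ g, P.Hm g (Sum.inr e) * y g = 0) : y = 0 := by
  funext e
  induction e using WellFoundedGT.induction with
  | _ e ih =>
  have h1 := h e
  simp only [Hm, sub_mul, sum_sub_distrib, Sum.inr.injEq, ite_mul, one_mul, zero_mul,
    sum_ite_eq, mem_univ, if_true] at h1
  rw [sub_eq_zero] at h1
  rw [h1, Pi.zero_apply]
  refine sum_eq_zero fun g _ => ?_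
  by_cases h0 : P.cf g (Sum.inr e) = 0
  · rw [h0, zero_mul]
  · rw [ih g (P.cf_lt g e h0), Pi.zero_apply, mul_zero]

theorem dual_exists (z : Gt → F) : ∃ y : Gt → F, ∀ e, ∑ g, P.Hm g (Sum.inr e) * y g = z e := by
  set D : (Gt → F) →ₗ[F] (Gt → F) :=
    { toFun := fun y e => ∑ g, P.Hm g (Sum.inr e) * y g
      map_add' := fun a b => by
        funext e
        simp only [Pi.add_apply, mul_add, sum_add_distrib]
      map_smul' := fun c a => by
        funext e
        simp only [Pi.smul_apply, smul_eq_mul, RingHom.id_apply, mul_sum]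
        exact sum_congr rfl fun g _ => by ring } with hD
  have hinj : Function.Injective D := by
    rw [injective_iff_map_eq_zero]
    intro y hy
    exact P.dual_zero fun e => congrFun hy e
  obtain ⟨y, hy⟩ := (LinearMap.injective_iff_surjective.1 hinj) z
  exact ⟨y, fun e => congrFun hy e⟩

theorem var_rows {y : Gt → F}
    (h : ∀ e, ∑ g, P.Hm g (Sum.inr e) * y g ≠ 0 → P.L e = 0) (x : V) :
    ∑ g, P.Hm g (Sum.inl x) * y g = 0 := by
  have h1 : ∑ s, (∑ g, P.Hm g s * y g) • vc P.L s = 0 := by
    simp only [sum_smul]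
    rw [sum_comm]
    refine sum_eq_zero fun g _ => ?_
    have h2 := congrArg (fun v => y g • v) (P.lin_rel g)
    simp only [smul_zero, smul_sum, smul_smul] at h2
    rw [← h2]
    exact sum_congr rfl fun s _ => by rw [mul_comm]
  have h2 := congrFun h1 x
  rw [Fintype.sum_sum_type, Pi.add_apply, Finset.sum_apply, Finset.sum_apply, Pi.zero_apply] at h2
  have h3 : ∑ e : Gt, ((∑ g, P.Hm g (Sum.inr e) * y g) • vc P.L (Sum.inr e)) x = 0 := by
    refine sum_eq_zero fun e _ => ?_
    by_cases h0 : ∑ g, P.Hm g (Sum.inr e) * y g = 0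
    · rw [h0, zero_smul, Pi.zero_apply]
    · have : vc P.L (Sum.inr e) = 0 := h e h0
      rw [this, smul_zero, Pi.zero_apply]
  rw [h3, add_zero, Finset.sum_eq_single x] at h2
  · simpa [vc] using h2
  · intro x' _ hne
    simp [vc, Pi.single_eq_of_ne' hne]
  · intro h
    exact absurd (mem_univ _) h

open Classical in
/-- the output rows -/
noncomputable def oR (outs : Finset Gt) : Finset (V ⊕ Gt) := outs.image Sum.inr

variable {P}

theorem inr_mem_oR {outs : Finset Gt} {e : Gt} :
    (Sum.inr e : V ⊕ Gt) ∈ oR (V := V) outs ↔ e ∈ outs := by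
  classical
  unfold oR
  rw [mem_image]
  constructor
  · rintro ⟨e', h1, h2⟩
    rwa [← Sum.inr_injective h2]
  · intro h
    exact ⟨e, h, rfl⟩

theorem inl_notMem_oR {outs : Finset Gt} {x : V} :
    (Sum.inl x : V ⊕ Gt) ∉ oR (V := V) outs := by
  classical
  unfold oR
  rw [mem_image]
  rintro ⟨e', _, h2⟩
  cases h2

theorem card_oR (outs : Finset Gt) : (oR (V := V) outs).card = outs.card := by
  classical
  unfold oR
  exact card_image_of_injective _ Sum.inr_injective

/-- the live steps -/
noncomputable def live' (P : Prg F V Gt) (outs : Finset Gt) : Finset Gt :=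
  live P.Hm (oR outs)

theorem dual {outs : Finset Gt} (hL : ∀ o ∈ outs, P.L o = 0) :
    ∀ e ∈ oR (V := V) outs, ∃ y : Gt → F,
      ∀ s, ∑ g, P.Hm g s * y g = if s = e then 1 else 0 := by
  classical
  intro e he
  obtain ⟨e₀, he₀, rfl⟩ := mem_image.1 he
  obtain ⟨y, hy⟩ := P.dual_exists (Pi.single e₀ 1)
  refine ⟨y, fun s => ?_⟩
  rcases s with x | e
  · rw [if_neg (by simp)]
    refine P.var_rows (fun e he => ?_) x
    rw [hy] at he
    by_cases h : e = e₀
    · rw [h]
      exact hL e₀ he₀
    · rw [Pi.single_eq_of_ne h] at he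
      exact absurd rfl he
  · rw [hy, Pi.single_apply]
    by_cases h : e = e₀
    · rw [if_pos h, if_pos (by rw [h])]
    · rw [if_neg h, if_neg fun h' => h (Sum.inr_injective h')]

/-- every nontrivial combination of the output polynomials uses at least `T` products -/
def Rich (P : Prg F V Gt) (outs : Finset Gt) (T : ℕ) : Prop :=
  ∀ z y : Gt → F, z ≠ 0 → (∀ e, e ∉ outs → z e = 0) →
    ∑ e, z e • P.Q e = ∑ g, y g • P.pr g → ∀ A : Finset Gt, (∀ g, y g ≠ 0 → g ∈ A) → T ≤ A.card

theorem right_dist {outs : Finset Gt} {T : ℕ} (hR : P.Rich outs T) (y : Gt → F)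
    (hy : RightSol P.Hm (oR outs) y) (h0 : y ≠ 0) (A : Finset Gt) (hA : ∀ g, y g ≠ 0 → g ∈ A) :
    T ≤ A.card := by
  refine hR (fun e => ∑ g, P.Hm g (Sum.inr e) * y g) y ?_ ?_ (P.dual_identity y) A hA
  · intro h
    exact h0 (P.dual_zero fun e => congrFun h e)
  · intro e he
    exact hy _ fun h => he (inr_mem_oR.1 h)

/-- the values of the linear parts at a point -/
noncomputable def val (P : Prg F V Gt) : (V → F) →ₗ[F] (V ⊕ Gt → F) where
  toFun ξ s := dotProduct (vc P.L s) ξ
  map_add' a b := by
    funext s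
    exact dotProduct_add _ _ _
  map_smul' c a := by
    funext s
    exact dotProduct_smul _ _ _

theorem val_apply (ξ : V → F) (s : V ⊕ Gt) : P.val ξ s = dotProduct (vc P.L s) ξ := rfl

theorem val_inl (ξ : V → F) (x : V) : P.val ξ (Sum.inl x) = ξ x := by
  rw [val_apply, vc, Sum.elim_inl, single_one_dotProduct]

theorem val_inj : Function.Injective P.val := by
  rw [injective_iff_map_eq_zero]
  intro ξ h
  funext x
  rw [← P.val_inl ξ x, h]
  rfl

theorem val_sum (ξ : V → F) (c : V ⊕ Gt → F) :
    ∑ s, c s * P.val ξ s = dotProduct (∑ s, c s • vc P.L s) ξ := by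
  rw [sum_dotProduct]
  exact sum_congr rfl fun s _ => by rw [smul_dotProduct]; rfl

theorem val_rel (ξ : V → F) (g : Gt) : ∑ s, P.Hm g s * P.val ξ s = 0 := by
  rw [val_sum, P.lin_rel, zero_dotProduct]

open Classical in
/-- the steps which use a symbol as the first (second) factor -/
noncomputable def useA (P : Prg F V Gt) (s : V ⊕ Gt) : Finset Gt :=
  univ.filter fun g => P.sa g = s

open Classical in
/-- the steps which use a symbol as the second factor -/
noncomputable def useB (P : Prg F V Gt) (s : V ⊕ Gt) : Finset Gt :=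
  univ.filter fun g => P.sb g = s

open Classical in
/-- the symbols which are not used often -/
noncomputable def light (P : Prg F V Gt) (Δ : ℕ) : Finset (V ⊕ Gt) :=
  univ.filter fun s => (eqs P.Hm univ s).card + ((P.useA s).card + (P.useB s).card) ≤ Δ

theorem heavy (Δ : ℕ) : (Δ + 1) * ((P.light Δ)ᶜ).card ≤ 5 * Fintype.card Gt := by
  classical
  have h1 : ∑ s, (eqs P.Hm univ s).card ≤ 3 * Fintype.card Gt := by
    rw [count_inc]
    refine (sum_le_card_nsmul _ _ 3 fun g _ => ?_).trans (le_of_eq ?_)
    · have h2 := row_le_wt (H := P.Hm) univ g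
      have h3 := P.wt_le g
      have h4 := P.ops_card g
      omega
    · rw [smul_eq_mul, mul_comm, card_univ]
  have h2 : ∑ s, (P.useA s).card = Fintype.card Gt := by
    unfold useA
    simp only [card_filter]
    rw [sum_comm]
    simp
  have h3 : ∑ s, (P.useB s).card = Fintype.card Gt := by
    unfold useB
    simp only [card_filter]
    rw [sum_comm]
    simp
  have h4 : ((P.light Δ)ᶜ).card * (Δ + 1) ≤ ∑ s ∈ (P.light Δ)ᶜ,
      ((eqs P.Hm univ s).card + ((P.useA s).card + (P.useB s).card)) := by
    rw [← smul_eq_mul]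
    refine card_nsmul_le_sum _ _ _ fun s hs => ?_
    rw [mem_compl] at hs
    unfold light at hs
    rw [mem_filter] at hs
    by_contra h
    exact hs ⟨mem_univ _, by omega⟩
  have h5 : ∑ s ∈ (P.light Δ)ᶜ,
      ((eqs P.Hm univ s).card + ((P.useA s).card + (P.useB s).card)) ≤
      ∑ s, ((eqs P.Hm univ s).card + ((P.useA s).card + (P.useB s).card)) :=
    sum_le_sum_of_subset (subset_univ _)
  have h6 : ∑ s, ((eqs P.Hm univ s).card + ((P.useA s).card + (P.useB s).card)) =
      ∑ s, (eqs P.Hm univ s).card + (Fintype.card Gt + Fintype.card Gt) := by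
    rw [sum_add_distrib, sum_add_distrib, h2, h3]
  rw [mul_comm]
  omega

open Classical in
/-- the symbols with nonzero linear form -/
noncomputable def nz (P : Prg F V Gt) : Finset (V ⊕ Gt) := univ.filter fun s => vc P.L s ≠ 0

open Classical in
/-- the steps whose equations are used -/
noncomputable def steps (P : Prg F V Gt) (outs : Finset Gt) : Finset Gt :=
  P.live' outs ∪ univ.filter fun g => P.L g ≠ 0

/-- a solution is given by a point -/
theorem sol_eq {outs : Finset Gt} {E : Finset (V ⊕ Gt)} (hE : E ⊆ P.nz) {x : V ⊕ Gt → F}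
    (hx : Sol P.Hm E (P.steps outs) x) (s : V ⊕ Gt) :
    x s = P.val (fun z => x (Sum.inl z)) s := by
  classical
  set ξ : V → F := fun z => x (Sum.inl z) with hξ
  have key : ∀ w : Gt, x (Sum.inr w) = P.val ξ (Sum.inr w) := by
    intro w
    induction w using WellFoundedLT.induction with
    | _ w ih =>
    by_cases h0 : P.L w = 0
    · have h1 : (Sum.inr w : V ⊕ Gt) ∉ E := fun h => (mem_filter.1 (hE h)).2 h0
      rw [hx.1 _ h1, val_apply]
      have : vc P.L (Sum.inr w) = 0 := h0
      rw [this, zero_dotProduct]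
    · have h1 := hx.2 w (mem_union_right _ (mem_filter.2 ⟨mem_univ _, h0⟩))
      have h2 : ∑ e ∈ E, P.Hm w e * x e = ∑ e, P.Hm w e * x e := by
        refine sum_subset (subset_univ _) fun e _ he => ?_
        rw [hx.1 e he, mul_zero]
      rw [h2] at h1
      have h3 : ∑ e, P.Hm w e * x e = x (Sum.inr w) - ∑ s, P.cf w s * P.val ξ s := by
        simp only [Hm, sub_mul, sum_sub_distrib, ite_mul, one_mul, zero_mul, sum_ite_eq',
          mem_univ, if_true]
        congr 1
        refine sum_congr rfl fun s _ => ?_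
        by_cases h4 : P.cf w s = 0
        · rw [h4, zero_mul, zero_mul]
        · congr 1
          rcases s with z | u
          · rw [val_inl]
          · exact ih u (P.cf_lt w u h4)
      rw [h3, sub_eq_zero, val_sum, ← P.L_eq w] at h1
      exact h1
  rcases s with z | w
  · rw [val_inl]
  · exact key w

/-- in every direction at least `m` products have a factor with nonzero derivative -/
def Active (P : Prg F V Gt) (m : ℕ) : Prop :=
  ∀ ξ : V → F, ξ ≠ 0 → ∀ A : Finset Gt,
    (∀ g, P.pd g → (P.val ξ (P.sa g) ≠ 0 ∨ P.val ξ (P.sb g) ≠ 0) → g ∈ A) → m ≤ A.card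

theorem left_dist {outs : Finset Gt} {m Δ T : ℕ} (hm : P.Active m) (hΔ : 0 < Δ)
    (hT : Δ * T ≤ m) : Dist P.Hm (P.nz ∩ P.light Δ) (P.steps outs) T := by
  classical
  intro x hx hne
  set ξ : V → F := fun z => x (Sum.inl z) with hξ
  have hval := sol_eq (P := P) inter_subset_left hx
  have hξ0 : ξ ≠ 0 := by
    intro h
    apply hne
    funext s
    rw [hval s, ← hξ, h, map_zero]
  set A := (spt (P.nz ∩ P.light Δ) x).biUnion fun s => P.useA s ∪ P.useB s with hA
  have h1 : m ≤ A.card := by
    refine hm ξ hξ0 A fun g _ hg => ?_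
    have h2 : ∀ s, P.val ξ s ≠ 0 → s ∈ spt (P.nz ∩ P.light Δ) x := by
      intro s hs
      rw [← hval s] at hs
      unfold spt
      rw [mem_filter]
      refine ⟨?_, hs⟩
      by_contra h
      exact hs (hx.1 s h)
    rw [hA, mem_biUnion]
    rcases hg with hg | hg
    · refine ⟨_, h2 _ hg, mem_union_left _ ?_⟩
      unfold useA
      rw [mem_filter]
      exact ⟨mem_univ _, rfl⟩
    · refine ⟨_, h2 _ hg, mem_union_right _ ?_⟩
      unfold useB
      rw [mem_filter]
      exact ⟨mem_univ _, rfl⟩
  have h2 : A.card ≤ (spt (P.nz ∩ P.light Δ) x).card * Δ := by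
    refine card_biUnion_le.trans ((sum_le_card_nsmul _ _ Δ fun s hs => ?_).trans
      (le_of_eq (smul_eq_mul _ _)))
    unfold spt at hs
    rw [mem_filter, mem_inter] at hs
    have h3 := hs.1.2
    unfold light at h3
    rw [mem_filter] at h3
    have h4 := card_union_le (P.useA s) (P.useB s)
    omega
  have h3 : Δ * T ≤ Δ * (spt (P.nz ∩ P.light Δ) x).card := by
    rw [mul_comm Δ (Finset.card _)]
    exact hT.trans (h1.trans h2)
  exact Nat.le_of_mul_le_mul_left h3 hΔ

theorem count {outs : Finset Gt} : Fintype.card V + (P.steps outs).card ≤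
    (P.nz ∪ liveRows P.Hm (oR outs)).card := by
  classical
  have h1 : ((univ : Finset V).disjSum (P.steps outs)).card =
      Fintype.card V + (P.steps outs).card := by
    rw [card_disjSum, card_univ]
  rw [← h1]
  refine card_le_card fun s hs => ?_
  rw [mem_union]
  rcases s with x | g
  · left
    unfold nz
    rw [mem_filter]
    refine ⟨mem_univ _, fun h => ?_⟩
    have := congrFun h x
    simp [vc] at this
  · rw [inr_mem_disjSum] at hs
    unfold steps at hs
    rw [mem_union, mem_filter] at hs
    rcases hs with hs | hs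
    · right
      refine mem_liveRows.2 ⟨g, hs, ?_⟩
      rw [P.Hm_self]
      exact one_ne_zero
    · left
      unfold nz
      rw [mem_filter]
      exact ⟨mem_univ _, hs.2⟩

open Classical in
/-- **The inequality for programs.** -/
theorem main (outs : Finset Gt) (hL : ∀ o ∈ outs, P.L o = 0) {ε : ℝ} (hε : 0 < ε)
    {i r Δ N m : ℕ} (hi : 1 ≤ i) (hr : 0 < r) (hΔ : 0 < Δ) (hN : (N : ℝ) ≤ (1 + ε) ^ i)
    (hGN : Fintype.card Gt ≤ N) (hm : P.Active m)
    (hT : Δ * ((1 + Δ) ^ r * (4 * i + 3)) ≤ m) (hR : P.Rich outs ((1 + 3) ^ r * (4 * i + 3))) :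
    r * (3 * (Fintype.card V : ℝ) + 2 * outs.card +
      ((P.live' outs).filter fun g => (P.ops g).card = 0).card -
      (univ.filter fun g => (P.ops g).card = 2).card - 3 * ((P.light Δ)ᶜ).card - 2 * ε * N) ≤
      2 * N := by
  obtain ⟨C', h1, h2, h3⟩ := two_codes (H := P.Hm) (outs := oR outs) P.val P.val_inj
    (fun ξ g => P.val_rel ξ g) P.nz
    (fun ξ s hs => by
      have : vc P.L s = 0 := by
        by_contra h
        exact hs (mem_filter.2 ⟨mem_univ _, h⟩)
      rw [val_apply, this, zero_dotProduct])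
    (by
      rw [disjoint_left]
      intro s hs hs'
      obtain ⟨o, ho, rfl⟩ := mem_image.1 hs'
      exact (mem_filter.1 hs).2 (hL o ho))
    (P.light Δ) (P.steps outs) subset_union_left
    (by
      rw [Module.finrank_fintype_fun_eq_card]
      exact P.count)
    (fun g => by
      have := P.wt_le g
      have := P.ops_card g
      omega)
    (P.dual hL) hε (i := i) (r := r) (Δ := Δ) (N := N) hi hr hN
    ((card_le_univ _).trans hGN)
    (fun s hs => by
      unfold light at hs
      rw [mem_filter] at hs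
      omega)
    (left_dist hm hΔ hT) (fun y hy h0 A hA => right_dist hR y hy h0 A hA)
  rw [Module.finrank_fintype_fun_eq_card, card_oR] at h3
  refine le_trans (mul_le_mul_of_nonneg_left ?_ (Nat.cast_nonneg r)) h3
  have h4 : ∑ g ∈ C', wt P.Hm g + ((P.live' outs).filter fun g => (P.ops g).card = 0).card ≤
      2 * C'.card + (univ.filter fun g => (P.ops g).card = 2).card := by
    have h5 : ∑ g ∈ C', (wt P.Hm g + if (P.ops g).card = 0 then 1 else 0) ≤
        ∑ g ∈ C', (2 + if (P.ops g).card = 2 then 1 else 0) := by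
      refine sum_le_sum fun g _ => ?_
      have h6 := P.wt_le g
      have h7 := P.ops_card g
      split_ifs <;> omega
    rw [sum_add_distrib, sum_add_distrib, sum_const, smul_eq_mul, ← card_filter,
      ← card_filter] at h5
    have h6 : ((P.live' outs).filter fun g => (P.ops g).card = 0).card ≤
        (C'.filter fun g => (P.ops g).card = 0).card :=
      card_le_card (filter_subset_filter _ h1)
    have h7 : (C'.filter fun g => (P.ops g).card = 2).card ≤
        (univ.filter fun g => (P.ops g).card = 2).card :=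
      card_le_card (filter_subset_filter _ (subset_univ _))
    omega
  have h5 : ((∑ g ∈ C', wt P.Hm g : ℕ) : ℝ) +
      ((P.live' outs).filter fun g => (P.ops g).card = 0).card ≤
      2 * C'.card + (univ.filter fun g => (P.ops g).card = 2).card := by exact_mod_cast h4
  linarith

end Prg

end Pool.Agent.H706.NC
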