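import Pool.Agent.H706.NC.Prog

set_option autoImplicit false

/-!
# Matrix multiplication: the two distances
-/

namespace Pool.Agent.H706.NC

open Finset Pool.Agent.H88R3.MM Pool.Agent.W946.Kos Pool.Agent.W946.Sz
open Pool.Agent.H706.HC (form form_zero form_hom D2_form D2_smul vc D2_entry_diag' Suffice quad
  outs)

variable {F Gt : Type*} [Field F] {m : ℕ} [Fintype Gt] [LinearOrder Gt]
  {P : Prg F (Vars m) Gt} {out : Fin m → Fin m → Gt}

theorem out_inj (hQ : ∀ i j, P.Q (out i j) = entry F m i j) {i j i' j' : Fin m}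
    (h : out i j = out i' j') : i = i' ∧ j = j' := by
  have h1 := congrArg (D2 (Sum.inl (i, i)) (Sum.inr (i, j))) (hQ i j)
  rw [h, hQ i' j', D2_entry_diag', D2_entry_diag'] at h1
  simp only [if_true, and_self] at h1
  by_contra hne
  rw [if_neg hne] at h1
  exact zero_ne_one h1

theorem card_outs (hQ : ∀ i j, P.Q (out i j) = entry F m i j) : (outs out).card = m ^ 2 := by
  classical
  rw [outs, card_image_of_injective, card_univ, Fintype.card_prod, Fintype.card_fin, sq]
  rintro ⟨i, j⟩ ⟨i', j'⟩ h
  obtain ⟨h1, h2⟩ := out_inj hQ h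
  exact Prod.ext h1 h2

open Classical in
theorem D2_pr (g : Gt) (x y : Vars m) :
    D2 x y (P.pr g) = (if P.pd g then (1 : F) else 0) * (vc P.L (P.sa g) x * vc P.L (P.sb g) y +
      vc P.L (P.sa g) y * vc P.L (P.sb g) x) := by
  unfold Prg.pr
  by_cases h : P.pd g
  · rw [if_pos h, if_pos h, D2_form, one_mul]
  · rw [if_neg h, if_neg h, zero_mul]
    unfold D2
    simp

theorem rich (hQ : ∀ i j, P.Q (out i j) = entry F m i j) {T : ℕ} (hT : 2 * T ≤ m) :
    P.Rich (outs out) T := by
  classical
  intro z bar hz hz0 heq A hA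
  obtain ⟨e₀, he₀⟩ : ∃ e, z e ≠ 0 := Function.ne_iff.1 hz
  have heO : e₀ ∈ outs out := by
    by_contra h
    exact he₀ (hz0 e₀ h)
  obtain ⟨⟨i₀, j₀⟩, _, h0⟩ := mem_image.1 heO
  simp only at h0
  have hD : ∀ x y, ∑ e, z e * D2 x y (P.Q e) = ∑ g, bar g * D2 x y (P.pr g) := by
    intro x y
    have h1 := congrArg (D2 x y) heq
    rw [D2_sum, D2_sum] at h1
    simp only [D2_smul] at h1
    exact h1
  -- the form
  have hform : ∀ k k' : Fin m, ∑ g, bar g * D2 (Sum.inl (i₀, k)) (Sum.inr (k', j₀)) (P.pr g) =
      if k' = k then z e₀ else 0 := by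
    intro k k'
    rw [← hD, Finset.sum_eq_single e₀]
    · rw [← h0, hQ, D2_entry_diag']
      by_cases hk : k' = k
      · rw [if_pos hk, if_pos hk, if_pos ⟨rfl, rfl⟩, mul_one]
      · rw [if_neg hk, if_neg hk, mul_zero]
    · intro e _ hne'
      by_cases he : e ∈ outs out
      · obtain ⟨⟨i, j⟩, _, h1⟩ := mem_image.1 he
        simp only at h1
        rw [← h1, hQ, D2_entry_diag']
        have h2 : ¬ (i₀ = i ∧ j₀ = j) := by
          rintro ⟨rfl, rfl⟩
          exact hne' (h1.symm.trans h0)
        rw [if_neg h2, ite_self, mul_zero]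
      · rw [hz0 e he, zero_mul]
    · intro h
      exact absurd (mem_univ _) h
  set a : Gt → Vars m → F := fun g => vc P.L (P.sa g) with ha
  set b : Gt → Vars m → F := fun g => vc P.L (P.sb g) with hb
  set G : Finset (Vars m → F) := A.image a ∪ A.image b with hG
  have hGcard : G.card ≤ 2 * A.card := by
    have h1 : (A.image a).card ≤ A.card := card_image_le
    have h2 : (A.image b).card ≤ A.card := card_image_le
    rw [hG]
    refine (card_union_le _ _).trans ?_
    omega
  have h1 : Fintype.card (Fin m) ≤ G.card := by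
    refine card_le_of_diag (F := F)
      (fun k : Fin m => (fun y => ∑ g, bar g * D2 (Sum.inl (i₀, k)) y (P.pr g) : Vars m → F))
      (fun l => LinearMap.proj (Sum.inr (l, j₀))) he₀ (fun k l => ?_) G fun k => ?_
    · rw [LinearMap.proj_apply]
      exact hform k l
    · have h2 : (fun y => ∑ g, bar g * D2 (Sum.inl (i₀, k)) y (P.pr g) : Vars m → F) =
          ∑ g, ((bar g * (if P.pd g then (1 : F) else 0) * a g (Sum.inl (i₀, k))) • b g +
            (bar g * (if P.pd g then (1 : F) else 0) * b g (Sum.inl (i₀, k))) • a g) := by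
        funext y
        simp only [Finset.sum_apply, Pi.add_apply, Pi.smul_apply, smul_eq_mul, D2_pr]
        exact sum_congr rfl fun g _ => by ring
      rw [h2]
      refine Submodule.sum_mem _ fun g _ => ?_
      by_cases hg : g ∈ A
      · refine Submodule.add_mem _ (Submodule.smul_mem _ _ (Submodule.subset_span ?_))
          (Submodule.smul_mem _ _ (Submodule.subset_span ?_))
        · rw [hG, coe_union, coe_image, coe_image]
          exact Or.inr ⟨g, hg, rfl⟩
        · rw [hG, coe_union, coe_image, coe_image]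
          exact Or.inl ⟨g, hg, rfl⟩
      · have h3 : bar g = 0 := by
          by_contra h
          exact hg (hA g h)
        rw [h3, zero_mul, zero_mul, zero_mul, zero_smul, zero_smul, add_zero]
        exact Submodule.zero_mem _
  rw [Fintype.card_fin] at h1
  omega

/-- the outputs are combinations of live products -/
theorem exists_comb (hQ : ∀ i j, P.Q (out i j) = entry F m i j)
    (hL : ∀ o ∈ outs out, P.L o = 0) (i j : Fin m) :
    ∃ y : Gt → F, (∀ g, y g ≠ 0 → g ∈ P.live' (outs out)) ∧
      entry F m i j = ∑ g, y g • P.pr g := by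
  classical
  have ho : out i j ∈ outs out := mem_image.2 ⟨(i, j), mem_univ _, rfl⟩
  obtain ⟨y, hy⟩ := P.dual hL (Sum.inr (out i j)) (Prg.inr_mem_oR.2 ho)
  refine ⟨y, fun g hg => mem_live.2 ⟨y, fun s hs => ?_, hg⟩, ?_⟩
  · rw [hy, if_neg]
    rintro rfl
    exact hs (Prg.inr_mem_oR.2 ho)
  · rw [← P.dual_identity y, Finset.sum_eq_single (out i j)]
    · rw [hy, if_pos rfl, one_smul, hQ]
    · intro e _ he
      rw [hy, if_neg fun h => he (Sum.inr_injective h), zero_smul]
    · intro h
      exact absurd (mem_univ _) h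

theorem active (hQ : ∀ i j, P.Q (out i j) = entry F m i j)
    (hL : ∀ o ∈ outs out, P.L o = 0) : P.Active m := by
  classical
  intro X hX A hA
  obtain ⟨z, hz⟩ := Function.ne_iff.1 hX
  rw [Pi.zero_apply] at hz
  set v : Gt → Vars m → F := fun g y => P.val X (P.sa g) * vc P.L (P.sb g) y +
    vc P.L (P.sa g) y * P.val X (P.sb g) with hv
  set G : Finset (Vars m → F) := A.image v with hG
  have hmem : ∀ i j, (fun y => ∑ x, X x * D2 x y (entry F m i j)) ∈
      Submodule.span F (G : Set (Vars m → F)) := by
    intro i j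
    obtain ⟨c, _, hc⟩ := exists_comb hQ hL i j
    have h1 : (fun y => ∑ x, X x * D2 x y (entry F m i j)) =
        ∑ g, (c g * if P.pd g then (1 : F) else 0) • v g := by
      funext y
      rw [hc]
      simp only [D2_sum, D2_smul, D2_pr, Finset.sum_apply, Pi.smul_apply, smul_eq_mul, mul_sum]
      rw [sum_comm]
      refine sum_congr rfl fun g _ => ?_
      simp only [hv, Prg.val_apply, dotProduct, sum_mul, mul_sum, mul_add, ← sum_add_distrib]
      exact sum_congr rfl fun x _ => by ring
    rw [h1]
    refine Submodule.sum_mem _ fun g _ => ?_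
    by_cases hp : P.pd g
    · refine Submodule.smul_mem _ _ ?_
      by_cases hg : P.val X (P.sa g) ≠ 0 ∨ P.val X (P.sb g) ≠ 0
      · refine Submodule.subset_span ?_
        rw [hG, coe_image]
        exact ⟨g, hA g hp hg, rfl⟩
      · push Not at hg
        have : v g = 0 := by
          funext y
          simp only [hv, hg.1, hg.2, zero_mul, mul_zero, add_zero]
          rfl
        rw [this]
        exact Submodule.zero_mem _
    · rw [if_neg hp, mul_zero, zero_smul]
      exact Submodule.zero_mem _
  have hcard : G.card ≤ A.card := card_image_le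
  refine le_trans ?_ hcard
  have hm : Fintype.card (Fin m) = m := Fintype.card_fin m
  rcases z with ⟨i, k⟩ | ⟨k, j⟩
  · refine hm.symm.le.trans (card_le_of_diag (F := F)
      (fun j : Fin m => (fun y => ∑ x, X x * D2 x y (entry F m i j) : Vars m → F))
      (fun l => LinearMap.proj (Sum.inr (k, l))) hz (fun j l => ?_) G fun j => hmem i j)
    rw [LinearMap.proj_apply]
    exact sum_entry_inr X i j k l
  · refine hm.symm.le.trans (card_le_of_diag (F := F)
      (fun i : Fin m => (fun y => ∑ x, X x * D2 x y (entry F m i j) : Vars m → F))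
      (fun l => LinearMap.proj (Sum.inl (l, k))) hz (fun i l => ?_) G fun i => hmem i j)
    rw [LinearMap.proj_apply]
    exact sum_entry_inl X i j k l

open Classical in
/-- the live products suffice. -/
theorem quad_le (hQ : ∀ i j, P.Q (out i j) = entry F m i j)
    (hL : ∀ o ∈ outs out, P.L o = 0) :
    quad F m ≤ ((P.live' (outs out)).filter fun g => P.pd g).card := by
  set A := (P.live' (outs out)).filter fun g => P.pd g with hA
  refine Nat.sInf_le ?_
  change Suffice F m A.card
  set e := A.equivFin with he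
  refine ⟨fun s => form (vc P.L (P.sa (e.symm s).1)), fun s => form (vc P.L (P.sb (e.symm s).1)),
    fun s => form_hom _, fun s => form_hom _, fun i j => ?_⟩
  obtain ⟨c, hc, hc'⟩ := exists_comb hQ hL i j
  rw [hc']
  refine Submodule.sum_mem _ fun g _ => ?_
  by_cases h0 : c g = 0
  · rw [h0, zero_smul]
    exact Submodule.zero_mem _
  · by_cases hp : P.pd g
    · have hg : g ∈ A := by
        rw [hA, mem_filter]
        exact ⟨hc g h0, hp⟩
      refine Submodule.smul_mem _ _ (Submodule.subset_span ⟨e ⟨g, hg⟩, ?_⟩)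
      simp only [Equiv.symm_apply_apply]
      unfold Prg.pr
      rw [if_pos hp]
    · unfold Prg.pr
      rw [if_neg hp, smul_zero]
      exact Submodule.zero_mem _

end Pool.Agent.H706.NC
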