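import Pool.Graph.R_seed8.W946.SzRounds

set_option autoImplicit false

/-!
# Elimination of the unknowns which occur in one equation only: the stage at which few are left
-/

namespace Pool.Agent.H706.NC

open Finset Pool.Agent.W946.Sz

variable {F S Ch : Type*} [Field F] [DecidableEq S] [DecidableEq Ch] {H : Ch → S → F}

open Classical in
/-- the unknowns which occur in exactly one equation -/
noncomputable def ones (H : Ch → S → F) (E : Finset S) (C : Finset Ch) : Finset S :=
  E.filter fun e => (eqs H C e).card = 1

theorem pos_of_dist {E : Finset S} {C : Finset Ch} (hd : Dist H E C 2) :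
    ∀ e ∈ E, 1 ≤ (eqs H C e).card := by
  classical
  intro e he
  by_contra h0
  have h1 : eqs H C e = ∅ := card_eq_zero.1 (by omega)
  have h2 : Sol H E C (Pi.single e 1 : S → F) := by
    refine ⟨fun e' he' => ?_, fun c hc => ?_⟩
    · rw [Pi.single_eq_of_ne]
      rintro rfl
      exact he' he
    · rw [sum_single c e he, mul_one]
      by_contra h3
      have : c ∈ eqs H C e := mem_filter.2 ⟨hc, h3⟩
      rw [h1] at this
      exact notMem_empty c this
  have h3 := hd _ h2 (fun h => by simpa using congrFun h e)
  have h4 := spt_single_le E e (1 : F)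
  omega

open Classical in
/-- one round of the elimination -/
theorem step {E : Finset S} {C : Finset Ch} {Δ T : ℕ}
    (hcol : ∀ e ∈ E, (eqs H C e).card ≤ Δ) (hT : 3 ≤ T) (hd : Dist H E C ((1 + Δ) * T)) :
    ∃ C₁ : Finset Ch, C₁ ⊆ C ∧ C₁.card = (ones H E C).card ∧
      Dist H (E \ ones H E C) (C \ C₁) T ∧ (∀ c ∈ C₁, ∃ e ∈ ones H E C, H c e ≠ 0) ∧
      (∀ c ∈ C \ C₁, ∀ e ∈ ones H E C, H c e = 0) ∧
      ∀ x, Sol H E C x → (∀ e ∈ E \ ones H E C, x e = 0) → x = 0 := by
  have hdT : Dist H E C 3 := hd.mono (by nlinarith)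
  have hpos := pos_of_dist (hdT.mono (by norm_num))
  set E₁ := ones H E C with hE₁
  have hE₁E : E₁ ⊆ E := filter_subset _ _
  have hE₁1 : ∀ e ∈ E₁, (eqs H C e).card = 1 := fun e he => (mem_filter.1 he).2
  have heq : ∀ e ∈ E₁, ∀ c ∈ eqs H C e, eqs H C e = {c} := by
    intro e he c hc
    obtain ⟨c', hc'⟩ := card_eq_one.1 (hE₁1 e he)
    rw [hc'] at hc ⊢
    rw [mem_singleton.1 hc]
  -- two unknowns of degree one are in different equations
  have hdisj : ∀ e ∈ E₁, ∀ e' ∈ E₁, e ≠ e' → Disjoint (eqs H C e) (eqs H C e') := by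
    intro e he e' he' hne
    rw [disjoint_left]
    intro c hc hc'
    have h1 := heq e he c hc
    have h2 := heq e' he' c hc'
    have hce : H c e ≠ 0 := (mem_filter.1 hc).2
    have hce' : H c e' ≠ 0 := (mem_filter.1 hc').2
    set x : S → F := (H c e') • (Pi.single e 1 : S → F) + (-(H c e)) • (Pi.single e' 1 : S → F)
      with hx
    have h3 : Sol H E C x := by
      refine ⟨fun z hz => ?_, fun c₂ hc₂ => ?_⟩
      · have hz1 : z ≠ e := fun h => hz (h ▸ hE₁E he)
        have hz2 : z ≠ e' := fun h => hz (h ▸ hE₁E he')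
        simp [hx, Pi.single_eq_of_ne hz1, Pi.single_eq_of_ne hz2]
      · have h4 : ∑ z ∈ E, H c₂ z * x z = H c e' * H c₂ e - H c e * H c₂ e' := by
          have h5 := sum_single (H := H) c₂ e (hE₁E he) 1
          have h6 := sum_single (H := H) c₂ e' (hE₁E he') 1
          rw [mul_one] at h5 h6
          rw [← h5, ← h6, mul_sum, mul_sum, ← sum_sub_distrib]
          refine sum_congr rfl fun z _ => ?_
          simp only [hx, Pi.add_apply, Pi.smul_apply, smul_eq_mul]
          ring
        rw [h4]
        by_cases h7 : c₂ = c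
        · rw [h7]
          ring
        · have h8 : H c₂ e = 0 := by
            by_contra h8
            have : c₂ ∈ eqs H C e := mem_filter.2 ⟨hc₂, h8⟩
            rw [h1, mem_singleton] at this
            exact h7 this
          have h9 : H c₂ e' = 0 := by
            by_contra h9
            have : c₂ ∈ eqs H C e' := mem_filter.2 ⟨hc₂, h9⟩
            rw [h2, mem_singleton] at this
            exact h7 this
          rw [h8, h9]
          ring
    have h4 : x ≠ 0 := by
      intro h5
      have h6 := congrFun h5 e
      simp [hx, Pi.single_eq_of_ne hne] at h6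
      exact hce' h6
    have h5 := hdT x h3 h4
    have h6 := spt_add_le (E := E) (Pi.single e 1 : S → F) (Pi.single e' 1) (H c e') (-(H c e))
    have h7 := spt_single_le E e (1 : F)
    have h8 := spt_single_le E e' (1 : F)
    rw [← hx] at h6
    omega
  set C₁ := E₁.biUnion fun e => eqs H C e with hC₁
  have hC₁C : C₁ ⊆ C := by
    intro c hc
    obtain ⟨e, _, h⟩ := mem_biUnion.1 hc
    exact (mem_filter.1 h).1
  have hC₁card : C₁.card = E₁.card := by
    rw [hC₁, card_biUnion fun e he e' he' hne => hdisj e he e' he' hne,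
      sum_congr rfl fun e he => hE₁1 e he, sum_const, smul_eq_mul, mul_one]
  refine ⟨C₁, hC₁C, hC₁card, ?_, ?_, ?_, ?_⟩
  · -- distance
    intro x' hx' hne'
    set L : Ch → F := fun c => ∑ e ∈ E \ E₁, H c e * x' e with hL
    set x : S → F := fun e => if e ∈ E₁ then -∑ c ∈ eqs H C e, (H c e)⁻¹ * L c else x' e with hx
    have hxE' : ∀ e, e ∉ E₁ → x e = x' e := fun e he => by rw [hx]; exact if_neg he
    have hxE₁ : ∀ e ∈ E₁, x e = -∑ c ∈ eqs H C e, (H c e)⁻¹ * L c := fun e he => by
      rw [hx]; exact if_pos he
    have hsol : Sol H E C x := by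
      refine ⟨fun e he => ?_, fun c hc => ?_⟩
      · rw [hxE' e fun h => he (hE₁E h)]
        exact hx'.1 e fun h => he (mem_sdiff.1 h).1
      · rw [← sum_sdiff hE₁E]
        have h1 : ∑ e ∈ E \ E₁, H c e * x e = L c := by
          rw [hL]
          exact sum_congr rfl fun e he => by rw [hxE' e (mem_sdiff.1 he).2]
        rw [h1]
        by_cases hc₁ : c ∈ C₁
        · obtain ⟨e₀, he₀, hce₀⟩ := mem_biUnion.1 hc₁
          have h2 : ∑ e ∈ E₁, H c e * x e = H c e₀ * x e₀ := by
            refine sum_eq_single e₀ (fun e he hne => ?_) fun h => absurd he₀ h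
            have : H c e = 0 := by
              by_contra h3
              have h4 : c ∈ eqs H C e := mem_filter.2 ⟨hc, h3⟩
              exact disjoint_left.1 (hdisj e he e₀ he₀ hne) h4 hce₀
            rw [this, zero_mul]
          have h3 : H c e₀ ≠ 0 := (mem_filter.1 hce₀).2
          rw [h2, hxE₁ e₀ he₀, heq e₀ he₀ c hce₀, sum_singleton]
          field_simp
          ring
        · have h2 : ∑ e ∈ E₁, H c e * x e = 0 := by
            refine sum_eq_zero fun e he => ?_
            have : H c e = 0 := by
              by_contra h3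
              exact hc₁ (mem_biUnion.2 ⟨e, he, mem_filter.2 ⟨hc, h3⟩⟩)
            rw [this, zero_mul]
          rw [h2, add_zero]
          exact hx'.2 c (mem_sdiff.2 ⟨hc, hc₁⟩)
    have hxne : x ≠ 0 := by
      obtain ⟨e, he⟩ := Function.ne_iff.1 hne'
      intro h0
      have heE : e ∈ E \ E₁ := by
        by_contra h
        exact he (hx'.1 e h)
      apply he
      rw [← hxE' e (mem_sdiff.1 heE).2, h0]
    have h1 := hd x hsol hxne
    set A := spt (E \ E₁) x' with hA
    set A₁ := E₁.filter fun e => x e ≠ 0 with hA₁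
    have h2 : (spt E x).card ≤ A.card + A₁.card := by
      refine (card_le_card ?_).trans (card_union_le _ _)
      intro e he
      unfold spt at he
      rw [mem_filter] at he
      rw [mem_union]
      by_cases h : e ∈ E₁
      · exact Or.inr (mem_filter.2 ⟨h, he.2⟩)
      · refine Or.inl (mem_filter.2 ⟨mem_sdiff.2 ⟨he.1, h⟩, ?_⟩)
        rw [← hxE' e h]
        exact he.2
    have h3 : A₁.card ≤ Δ * A.card := by
      have h4 : A₁.card = (A₁.biUnion fun e => eqs H C e).card := by
        rw [card_biUnion fun e he e' he' hne => hdisj e (mem_filter.1 he).1 e'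
          (mem_filter.1 he').1 hne, sum_congr rfl fun e he => hE₁1 e (mem_filter.1 he).1,
          sum_const, smul_eq_mul, mul_one]
      have h5 : (A₁.biUnion fun e => eqs H C e) ⊆ A.biUnion fun e => eqs H C e := by
        intro c hc
        obtain ⟨e, he, hce⟩ := mem_biUnion.1 hc
        rw [mem_filter] at he
        have h6 : L c ≠ 0 := by
          intro h7
          apply he.2
          rw [hxE₁ e he.1, heq e he.1 c hce, sum_singleton, h7, mul_zero, neg_zero]
        obtain ⟨e', he', h7⟩ := exists_ne_zero_of_sum_ne_zero h6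
        refine mem_biUnion.2 ⟨e', mem_filter.2 ⟨he', right_ne_zero_of_mul h7⟩, ?_⟩
        exact mem_filter.2 ⟨(mem_filter.1 hce).1, left_ne_zero_of_mul h7⟩
      rw [h4]
      refine (card_le_card h5).trans (card_biUnion_le.trans ?_)
      refine (sum_le_card_nsmul _ _ Δ fun e he => hcol e ?_).trans (le_of_eq ?_)
      · exact (mem_sdiff.1 (mem_filter.1 he).1).1
      · rw [smul_eq_mul, mul_comm]
    have h4 : (1 + Δ) * T ≤ (1 + Δ) * A.card := by nlinarith
    exact Nat.le_of_mul_le_mul_left h4 (by omega)
  · intro c hc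
    obtain ⟨e, he, h⟩ := mem_biUnion.1 hc
    exact ⟨e, he, (mem_filter.1 h).2⟩
  · intro c hc e he
    rw [mem_sdiff] at hc
    by_contra h
    exact hc.2 (mem_biUnion.2 ⟨e, he, mem_filter.2 ⟨hc.1, h⟩⟩)
  · intro x hx h0
    funext e
    by_cases he : e ∈ E
    · by_cases he₁ : e ∈ E₁
      · obtain ⟨c, hc⟩ := card_pos.1 (hpos e he)
        have hc' := mem_filter.1 hc
        have h1 := hx.2 c hc'.1
        rw [Finset.sum_eq_single e] at h1
        · exact (mul_eq_zero.1 h1).resolve_left hc'.2
        · intro e' he' hne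
          by_cases h2 : e' ∈ E₁
          · have : H c e' = 0 := by
              by_contra h3
              exact disjoint_left.1 (hdisj e' h2 e he₁ hne) (mem_filter.2 ⟨hc'.1, h3⟩) hc
            rw [this, zero_mul]
          · rw [h0 e' (mem_sdiff.2 ⟨he', h2⟩), mul_zero]
        · intro h
          exact absurd he h
      · exact h0 e (mem_sdiff.2 ⟨he, he₁⟩)
    · exact hx.1 e he

/-- **The stage at which few unknowns occur in one equation only.** -/
theorem stage {Δ T r N : ℕ} (hT : 3 ≤ T) (hr : 0 < r) (U : Finset Ch) (j : ℕ) :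
    ∀ (E : Finset S) (C : Finset Ch), U ⊆ C → (∀ e ∈ E, (eqs H C e).card ≤ Δ) →
    (∀ e ∈ E, (∃ c ∈ U, H c e ≠ 0) → 2 ≤ (eqs H U e).card) → r * C.card ≤ j * N →
    Dist H E C ((1 + Δ) ^ j * T) →
    ∃ (E' : Finset S) (C' : Finset Ch), E' ⊆ E ∧ C' ⊆ C ∧ U ⊆ C' ∧ Dist H E' C' T ∧
      E'.card + C.card = E.card + C'.card ∧ (∀ c ∈ C', ∀ e ∈ E \ E', H c e = 0) ∧
      (∀ x, Sol H E C x → (∀ e ∈ E', x e = 0) → x = 0) ∧ r * (ones H E' C').card ≤ N := by
  classical
  induction j with
  | zero =>
    intro E C hUC _ _ hC hd
    have hC0 : C.card = 0 := by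
      rw [zero_mul] at hC
      exact (Nat.mul_eq_zero.1 (Nat.le_zero.1 hC)).resolve_left hr.ne'
    refine ⟨E, C, subset_rfl, subset_rfl, hUC, ?_, rfl, ?_, ?_, ?_⟩
    · refine hd.mono ?_
      rw [pow_zero, one_mul]
    · intro c _ e he
      rw [sdiff_self] at he
      exact absurd he (notMem_empty e)
    · intro x hx h0
      funext e
      by_cases he : e ∈ E
      · exact h0 e he
      · exact hx.1 e he
    · have : ones H E C = ∅ := by
        unfold ones
        rw [filter_eq_empty_iff]
        intro e _ h
        have : (eqs H C e).card ≤ C.card := card_le_card (filter_subset _ _)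
        omega
      rw [this, card_empty, mul_zero]
      exact Nat.zero_le _
  | succ j ih =>
    intro E C hUC hcol hU hC hd
    by_cases hs : r * (ones H E C).card ≤ N
    · refine ⟨E, C, subset_rfl, subset_rfl, hUC, ?_, rfl, ?_, ?_, hs⟩
      · exact hd.mono (Nat.le_mul_of_pos_left _ (by positivity))
      · intro c _ e he
        rw [sdiff_self] at he
        exact absurd he (notMem_empty e)
      · intro x hx h0
        funext e
        by_cases he : e ∈ E
        · exact h0 e he
        · exact hx.1 e he
    · obtain ⟨C₁, h1, h2, h3, h4, h5, h6⟩ := step (T := (1 + Δ) ^ j * T) hcol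
        (le_trans hT (Nat.le_mul_of_pos_left _ (by positivity)))
        (hd.mono (le_of_eq (by rw [pow_succ]; ring)))
      have hE₁ : ones H E C ⊆ E := filter_subset _ _
      have hcC : (C \ C₁).card + C₁.card = C.card := card_sdiff_add_card_eq_card h1
      have hcE : (E \ ones H E C).card + (ones H E C).card = E.card :=
        card_sdiff_add_card_eq_card hE₁
      have hUC' : U ⊆ C \ C₁ := by
        intro c hc
        rw [mem_sdiff]
        refine ⟨hUC hc, fun hc₁ => ?_⟩
        obtain ⟨e, he, hce⟩ := h4 c hc₁
        have h7 := hU e (hE₁ he) ⟨c, hc, hce⟩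
        have h8 : (eqs H C e).card = 1 := (mem_filter.1 he).2
        have h9 : (eqs H U e).card ≤ (eqs H C e).card :=
          card_le_card (filter_subset_filter _ hUC)
        omega
      obtain ⟨E', C', g1, g2, g3, g4, g5, g6, g7, g8⟩ := ih (E \ ones H E C) (C \ C₁) hUC'
        (fun e he => (card_le_card (filter_subset_filter _ sdiff_subset)).trans
          (hcol e (mem_sdiff.1 he).1))
        (fun e he => hU e (mem_sdiff.1 he).1)
        (by
          have h7 : r * (C \ C₁).card + r * (ones H E C).card = r * C.card := by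
            rw [← h2, ← mul_add, hcC]
          rw [add_mul, one_mul] at hC
          omega) h3
      refine ⟨E', C', g1.trans sdiff_subset, g2.trans sdiff_subset, g3, g4, by omega, ?_, ?_, g8⟩
      · intro c hc e he
        rw [mem_sdiff] at he
        by_cases he₁ : e ∈ ones H E C
        · exact h5 c (g2 hc) e he₁
        · exact g6 c hc e (mem_sdiff.2 ⟨mem_sdiff.2 ⟨he.1, he₁⟩, he.2⟩)
      · intro x hx h0
        -- the restriction of `x`
        set x' : S → F := fun e => if e ∈ ones H E C then 0 else x e with hx'
        have hsol : Sol H (E \ ones H E C) (C \ C₁) x' := by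
          refine ⟨fun e he => ?_, fun c hc => ?_⟩
          · rw [hx']
            beta_reduce
            split_ifs with h
            · rfl
            · exact hx.1 e fun he' => he (mem_sdiff.2 ⟨he', h⟩)
          · have h7 := hx.2 c (mem_sdiff.1 hc).1
            rw [← sum_sdiff hE₁] at h7
            have h8 : ∑ e ∈ ones H E C, H c e * x e = 0 :=
              sum_eq_zero fun e he => by rw [h5 c hc e he, zero_mul]
            rw [h8, add_zero] at h7
            rw [← h7]
            refine sum_congr rfl fun e he => ?_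
            rw [hx']
            beta_reduce
            rw [if_neg (mem_sdiff.1 he).2]
        have h9 := g7 x' hsol fun e he => by
          rw [hx']
          beta_reduce
          split_ifs
          · rfl
          · exact h0 e he
        refine h6 x hx fun e he => ?_
        have h10 := congrFun h9 e
        rw [hx'] at h10
        beta_reduce at h10
        rwa [if_neg (mem_sdiff.1 he).2] at h10

section dimension

variable {X : Type*} [AddCommGroup X] [Module F X]

open Classical in
/-- the rank form of `few_light`: the solutions supported on unknowns which occur in at most two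
equations form a space of small dimension. -/
theorem dim_light {P E : Finset S} {C : Finset Ch} (hPE : P ⊆ E)
    (hdeg : ∀ e ∈ P, (eqs H C e).card ≤ 2)
    {ε : ℝ} (hε : 0 < ε) {i : ℕ} (hi : 1 ≤ i) (hC : (C.card : ℝ) ≤ (1 + ε) ^ i)
    (hd : Dist H E C (4 * i + 3)) (φ : X →ₗ[F] (S → F)) (hinj : Function.Injective φ)
    (hs : ∀ x, Sol H E C (φ x)) (hP : ∀ x, ∀ e, e ∉ P → φ x e = 0) :
    (Module.finrank F X : ℝ) ≤ ε * C.card := by
  -- independent equations
  set ρ : Ch → (P → F) := fun c e => H c e with hρ
  obtain ⟨b, hbC, _, hspan, hind⟩ := exists_linearIndepOn_extension (K := F) (v := ρ)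
    (s := (∅ : Set Ch)) (t := (C : Set Ch)) (linearIndepOn_empty F ρ) (Set.empty_subset _)
  have hbfin : b.Finite := C.finite_toSet.subset hbC
  set C₁ : Finset Ch := hbfin.toFinset with hC₁
  have hC₁C : C₁ ⊆ C := by
    intro c hc
    rw [hC₁, Set.Finite.mem_toFinset] at hc
    exact hbC hc
  have hCr : (C₁.card : ℝ) ≤ C.card := by exact_mod_cast card_le_card hC₁C
  -- the equations in `C₁` imply the others
  have himp : ∀ x : S → F, (∀ c ∈ C₁, ∑ e ∈ P, H c e * x e = 0) →
      ∀ c ∈ C, ∑ e ∈ P, H c e * x e = 0 := by
    intro x hx c hc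
    have h1 : ρ c ∈ Submodule.span F (ρ '' b) := hspan ⟨c, hc, rfl⟩
    have h2 : ∀ v ∈ Submodule.span F (ρ '' b), ∑ e : P, v e * x e = 0 := by
      intro v hv
      induction hv using Submodule.span_induction with
      | mem v hv =>
        obtain ⟨c', hc', rfl⟩ := hv
        rw [Finset.sum_coe_sort P (fun e => H c' e * x e)]
        exact hx c' (by rw [hC₁, Set.Finite.mem_toFinset]; exact hc')
      | zero => simp
      | add u v _ _ hu hv =>
        simp only [Pi.add_apply, add_mul, sum_add_distrib, hu, hv, add_zero]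
      | smul a v _ hv =>
        simp only [Pi.smul_apply, smul_eq_mul, mul_assoc, ← mul_sum, hv, mul_zero]
    have h3 := h2 _ h1
    rwa [Finset.sum_coe_sort P (fun e => H c e * x e)] at h3
  have hd₁ : Dist H P C₁ (4 * i + 3) := by
    intro x hx hne
    have h1 : Sol H E C x := Sol.mono hPE hx.1 (himp x hx.2)
    refine (hd x h1 hne).trans (card_le_card fun e he => ?_)
    unfold spt at he ⊢
    rw [mem_filter] at he ⊢
    refine ⟨?_, he.2⟩
    by_contra h
    exact he.2 (hx.1 e h)
  have hfew := few_light (H := H) (E := P) (P := P) (C := C₁) subset_rfl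
    (fun e he => (card_le_card (filter_subset_filter _ hC₁C)).trans (hdeg e he)) hε hi
    (hCr.trans hC) hd₁
  -- the dimension
  set M : Matrix C₁ P F := Matrix.of fun c e => H c e with hM
  have hrank : M.rank = C₁.card := by
    have h1 : LinearIndependent F (fun c : C₁ => ρ c) := by
      have h2 : LinearIndepOn F ρ (C₁ : Set Ch) := by
        rw [hC₁, Set.Finite.coe_toFinset]
        exact hind
      exact h2
    have h3 := LinearIndependent.rank_matrix (M := M) h1
    rw [h3, Fintype.card_coe]
  have hker := LinearMap.finrank_range_add_finrank_ker M.mulVecLin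
  have hrk : Module.finrank F (LinearMap.range M.mulVecLin) = C₁.card := hrank
  rw [hrk, Module.finrank_fintype_fun_eq_card, Fintype.card_coe] at hker
  -- the map into the kernel
  set ψ : X →ₗ[F] (P → F) :=
    LinearMap.pi fun e => (LinearMap.proj (e : S)).comp φ with hψ
  have hψe : ∀ x e, ψ x e = φ x e := fun x e => rfl
  have hψk : ∀ x, ψ x ∈ LinearMap.ker M.mulVecLin := by
    intro x
    rw [LinearMap.mem_ker, Matrix.mulVecLin_apply]
    funext c
    rw [Pi.zero_apply]
    have h1 := (hs x).2 c (hC₁C c.2)
    have h2 : ∑ e ∈ E, H c e * φ x e = ∑ e ∈ P, H c e * φ x e := by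
      symm
      refine sum_subset hPE fun e _ he => ?_
      rw [hP x e he, mul_zero]
    rw [h2] at h1
    change ∑ e : P, H c e * φ x e = 0
    rw [Finset.sum_coe_sort P (fun e => H c e * φ x e)]
    exact h1
  have hψinj : Function.Injective (LinearMap.codRestrict _ ψ hψk) := by
    rw [injective_iff_map_eq_zero]
    intro x hx
    have h1 : ψ x = 0 := congrArg Subtype.val hx
    apply hinj
    rw [map_zero]
    funext e
    by_cases he : e ∈ P
    · exact congrFun h1 ⟨e, he⟩
    · exact hP x e he
  have hle := LinearMap.finrank_le_finrank_of_injective hψinj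
  have hle' : C₁.card + Module.finrank F X ≤ P.card := by omega
  have hle'' : (C₁.card : ℝ) + Module.finrank F X ≤ P.card := by exact_mod_cast hle'
  have h5 : ε * C₁.card ≤ ε * C.card := mul_le_mul_of_nonneg_left hCr hε.le
  linarith

end dimension

end Pool.Agent.H706.NC
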